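import Mathlib

/-!
# Interface for the n-dimensional slow decay example (MP_0c4061_mp)

Every `Stmt...` below is a module; prove it as a theorem in a separate file.
-/

namespace NLSn

open MeasureTheory Filter Topology Set

noncomputable section

/-- `n`-dimensional Euclidean space -/
abbrev E (n : ℕ) := EuclideanSpace ℝ (Fin n)

/-- The Laplacian, as the sum of the second partial derivatives. -/
def lap {n : ℕ} {F : Type*} [NormedAddCommGroup F] [NormedSpace ℝ F] (f : E n → F) (x : E n) : F :=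
  ∑ i : Fin n, iteratedFDeriv ℝ 2 f x
    ![EuclideanSpace.single i (1 : ℝ), EuclideanSpace.single i (1 : ℝ)]

/-- test functions -/
def Test {n : ℕ} (φ : E n → ℝ) : Prop := ContDiff ℝ (⊤ : ℕ∞) φ ∧ HasCompactSupport φ

/-- `-Δ f + V f = λ f` in the sense of distributions -/
def WeakEig {n : ℕ} (V : E n → ℝ) (lam : ℝ) (f : E n → ℝ) : Prop :=
  ∀ φ : E n → ℝ, Test φ →
    ∫ x, f x * (-(lap φ x) + V x * φ x) = lam * ∫ x, f x * φ x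

/-- `Δ f = F` in the sense of distributions -/
def WeakLap {n : ℕ} (f F : E n → ℝ) : Prop :=
  ∀ φ : E n → ℝ, Test φ → ∫ x, f x * lap φ x = ∫ x, F x * φ x

/-- smooth harmonic functions, homogeneous of degree `l` (solid harmonics) -/
structure IsHarm {n : ℕ} (l : ℕ) (Y : E n → ℝ) : Prop where
  smooth : ContDiff ℝ (⊤ : ℕ∞) Y
  homog : ∀ t : ℝ, 0 < t → ∀ x, Y (t • x) = t ^ l * Y x
  harm : ∀ x, lap Y x = 0

/-- MODULE A: the functions `κ(log|x|) Y(x)` are total. -/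
def StmtA : Prop := ∀ (n : ℕ), 1 ≤ n → ∀ f : E n → ℝ, LocallyIntegrable f volume →
  (∀ (l : ℕ) (Y : E n → ℝ), IsHarm l Y → ∀ κ : ℝ → ℝ, ContDiff ℝ (⊤ : ℕ∞) κ →
    HasCompactSupport κ → ∫ x, f x * (κ (Real.log ‖x‖) * Y x) = 0) →
  f =ᵐ[volume] 0

/-- MODULE B: reduction of a weak eigenfunction of a radial potential to an ordinary
differential equation in the variable `τ = log r`. -/
def StmtB : Prop := ∀ (n : ℕ), 1 ≤ n → ∀ (v : ℝ → ℝ), Continuous v → ∀ (lam : ℝ)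
  (f : E n → ℝ), MemLp f 2 volume → WeakEig (fun x => v ‖x‖) lam f →
  ∀ (l : ℕ) (Y : E n → ℝ), IsHarm l Y →
  ∃ G G' : ℝ → ℝ, (∀ τ, HasDerivAt G (G' τ) τ) ∧
    (∀ τ, HasDerivAt G' ((((l : ℝ) + ((n : ℝ) - 2) / 2) ^ 2 +
      Real.exp (2 * τ) * (v (Real.exp τ) - lam)) * G τ) τ) ∧
    Integrable (fun τ => Real.exp (2 * τ) * G τ ^ 2) volume ∧
    ∀ κ : ℝ → ℝ, Continuous κ → HasCompactSupport κ →
      ∫ x, f x * (κ (Real.log ‖x‖) * Y x) =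
        ∫ τ, G τ * Real.exp (((l : ℝ) + (n : ℝ) / 2 + 1) * τ) * κ τ

/-- MODULE C: no square integrable solutions at nonresonant positive energies. -/
def StmtC : Prop := ∀ (p p' q q' s c h e y y' : ℝ → ℝ) (lam X K : ℝ), 0 < X → 0 < lam → lam ≠ 1 →
  (∀ r, X ≤ r → HasDerivAt p (p' r) r) → (∀ r, X ≤ r → HasDerivAt q (q' r) r) →
  (∀ r, X ≤ r → HasDerivAt s (2 * (1 + h r) * c r) r) →
  (∀ r, X ≤ r → HasDerivAt c (-(2 * (1 + h r) * s r)) r) →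
  (∀ r, X ≤ r → |p r| ≤ K / r) → (∀ r, X ≤ r → |p' r| ≤ K / r ^ 2) →
  (∀ r, X ≤ r → |q r| ≤ K / r) → (∀ r, X ≤ r → |q' r| ≤ K / r ^ 2) →
  (∀ r, X ≤ r → |h r| ≤ K / r) → (∀ r, X ≤ r → |e r| ≤ K / r ^ 2) →
  (∀ r, X ≤ r → |s r| ≤ 1) → (∀ r, X ≤ r → |c r| ≤ 1) →
  (∀ r, X ≤ r → HasDerivAt y (y' r) r) →
  (∀ r, X ≤ r → HasDerivAt y' ((p r + q r * s r + e r - lam) * y r) r) →
  IntegrableOn (fun r => y r ^ 2) (Ioi X) volume →
  ∃ r0, X ≤ r0 ∧ y r0 = 0 ∧ y' r0 = 0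

/-- MODULE D: symmetry and negativity of the Laplacian on its maximal domain in `L²`. -/
def StmtD : Prop := ∀ (n : ℕ), 1 ≤ n → ∀ (f F g G : E n → ℝ), MemLp f 2 volume → MemLp F 2 volume →
  MemLp g 2 volume → MemLp G 2 volume → WeakLap f F → WeakLap g G →
  (∫ x, F x * g x = ∫ x, f x * G x) ∧ ∫ x, F x * f x ≤ 0

/-- MODULE E: all but countably many couplings have no eigenfunction at energy `1`. -/
def StmtE : Prop := ∀ (n : ℕ), 1 ≤ n → ∀ (W u : E n → ℝ), Continuous W → Continuous u →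
  (∃ K, ∀ x, |W x| ≤ K) → (∃ K, ∀ x, |u x| ≤ K) → volume {x | u x = 0} = 0 →
  ∀ ε0 : ℝ, 0 < ε0 → ∃ ε : ℝ, 0 < ε ∧ ε < ε0 ∧ ∀ f : E n → ℝ, MemLp f 2 volume →
    WeakEig (fun x => W x - ε * u x ^ 2) 1 f → f =ᵐ[volume] 0

/-- MODULE F1: radial functions, constant near the origin: smoothness, Laplacian, gradient. -/
def StmtF1 : Prop := ∀ (n : ℕ), 1 ≤ n → ∀ (U : ℝ → ℝ) (r0 K : ℝ), 0 < r0 →
  ContDiff ℝ (⊤ : ℕ∞) U → (∀ r, r ≤ r0 → U r = K) →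
  ContDiff ℝ (⊤ : ℕ∞) (fun x : E n => U ‖x‖) ∧
  (∀ x : E n, lap (fun x : E n => U ‖x‖) x =
    deriv (deriv U) ‖x‖ + ((n : ℝ) - 1) / ‖x‖ * deriv U ‖x‖) ∧
  (∀ x : E n, ‖fderiv ℝ (fun x : E n => U ‖x‖) x‖ = |deriv U ‖x‖|)

/-- MODULE F2: derivative bounds for radial functions. -/
def StmtF2 : Prop := ∀ (n : ℕ), 1 ≤ n → ∀ (U : ℝ → ℝ) (r0 r1 K : ℝ), 0 < r0 →
  ContDiff ℝ (⊤ : ℕ∞) U → (∀ r, r ≤ r0 → U r = K) →
  (∀ k : ℕ, ∃ C, ∀ r, r1 ≤ r → |iteratedDeriv k U r| ≤ C / r) →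
  ∀ k : ℕ, ∃ C, ∀ x : E n,
    ‖iteratedFDeriv ℝ k (fun x : E n => U ‖x‖) x‖ ≤ C / √(1 + ‖x‖ ^ 2)

end

end NLSn
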