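import Pool.Agent.Lib52.NLSn.Defs

/-!
# Final definitions and the remaining interface
-/

namespace NLSn

open MeasureTheory Filter Topology Set

noncomputable section

/-- The class of potentials: smooth, positive, and every derivative is `O(⟨x⟩⁻¹)`. -/
def IsPotential {n : ℕ} (V : E n → ℝ) : Prop :=
  ContDiff ℝ (⊤ : ℕ∞) V ∧ (∀ x, 0 < V x) ∧
    ∀ k : ℕ, ∃ C : ℝ, ∀ x, ‖iteratedFDeriv ℝ k V x‖ ≤ C / √(1 + ‖x‖ ^ 2)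

/-- `-Δ + V` has no eigenvalue: every square integrable solution (in the sense of
distributions) of `-Δ f + V f = λ f` vanishes almost everywhere. -/
def NoEigenvalue {n : ℕ} (V : E n → ℝ) : Prop :=
  ∀ (lam : ℝ) (f : E n → ℂ), MemLp f 2 volume →
    (∀ φ : E n → ℝ, ContDiff ℝ (⊤ : ℕ∞) φ → HasCompactSupport φ →
      ∫ x, f x * ((-(lap φ x) + V x * φ x : ℝ) : ℂ) =
        (lam : ℂ) * ∫ x, f x * ((φ x : ℝ) : ℂ)) →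
    f =ᵐ[volume] 0

/-- `ψ` is a smooth global solution of `i ψ_t = -Δψ + V ψ + |ψ|² ψ`, bounded in `H¹` and
continuous in time with values in `H¹`. -/
structure IsBoundedSolution {n : ℕ} (V : E n → ℝ) (ψ : ℝ → E n → ℂ) : Prop where
  smooth : ContDiff ℝ (⊤ : ℕ∞) (fun p : ℝ × E n => ψ p.1 p.2)
  eqn : ∀ t x, Complex.I * deriv (fun τ => ψ τ x) t =
    -(lap (ψ t) x) + (V x : ℂ) * ψ t x + (‖ψ t x‖ : ℂ) ^ 2 * ψ t x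
  memH1 : ∀ t, MemLp (ψ t) 2 volume ∧ MemLp (fderiv ℝ (ψ t)) 2 volume
  bounded : ∃ C : ℝ, ∀ t, ∫ x, (‖ψ t x‖ ^ 2 + ‖fderiv ℝ (ψ t) x‖ ^ 2) ≤ C
  contH1 : ∀ t₀, Tendsto
    (fun t => ∫ x, (‖ψ t x - ψ t₀ x‖ ^ 2 + ‖fderiv ℝ (ψ t) x - fderiv ℝ (ψ t₀) x‖ ^ 2))
    (𝓝 t₀) (𝓝 0)

/-- The weighted norm `‖⟨x⟩^δ ψ(t)‖` in `L²` is bounded uniformly in `t`. -/
def IsLocalized {n : ℕ} (δ : ℝ) (ψ : ℝ → E n → ℂ) : Prop :=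
  ∃ C : ℝ, ∀ t,
    Integrable (fun x : E n => ((√(1 + ‖x‖ ^ 2)) ^ δ * ‖ψ t x‖) ^ 2) volume ∧
    ∫ x : E n, ((√(1 + ‖x‖ ^ 2)) ^ δ * ‖ψ t x‖) ^ 2 ≤ C

/-- The radial profile `U` and the potential `W` with `Δ U = (W - 1) U`; the potentials of
the final theorem are `W - ε U²` (module G provides them). -/
structure Profile (n m : ℕ) (W U : ℝ → ℝ) : Prop where
  smoothU : ContDiff ℝ (⊤ : ℕ∞) U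
  smoothW : ContDiff ℝ (⊤ : ℕ∞) W
  core : ∃ r0 K : ℝ, 0 < r0 ∧ 0 < K ∧ (∀ r, r ≤ r0 → U r = K) ∧ ∀ r, r ≤ r0 → W r = 1
  eqn : ∀ r, 0 < r → deriv (deriv U) r + ((n : ℝ) - 1) / r * deriv U r = (W r - 1) * U r
  posW : ∃ a : ℝ, 0 < a ∧ ∀ r, 0 ≤ r → a / (1 + r) ≤ W r
  decU : ∃ C : ℝ, ∀ r, 0 ≤ r → |U r| ≤ C * (1 + r) ^ (-(((n : ℝ) - 1) / 2 + 2 * m)) ∧
    |deriv U r| ≤ C * (1 + r) ^ (-(((n : ℝ) - 1) / 2 + 2 * m))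
  decV : ∀ ε : ℝ, ∀ k : ℕ, ∃ C r1 : ℝ, ∀ r, r1 ≤ r →
    |iteratedDeriv k (fun r => W r - ε * U r ^ 2) r| ≤ C / r
  zeros : {r : ℝ | 0 ≤ r ∧ U r = 0}.Countable
  osc : ∀ ε ν : ℝ, ∃ (X K : ℝ) (p p' q q' s c h e : ℝ → ℝ), 0 < X ∧
    (∀ r, X ≤ r → HasDerivAt p (p' r) r) ∧ (∀ r, X ≤ r → HasDerivAt q (q' r) r) ∧
    (∀ r, X ≤ r → HasDerivAt s (2 * (1 + h r) * c r) r) ∧
    (∀ r, X ≤ r → HasDerivAt c (-(2 * (1 + h r) * s r)) r) ∧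
    (∀ r, X ≤ r → |p r| ≤ K / r) ∧ (∀ r, X ≤ r → |p' r| ≤ K / r ^ 2) ∧
    (∀ r, X ≤ r → |q r| ≤ K / r) ∧ (∀ r, X ≤ r → |q' r| ≤ K / r ^ 2) ∧
    (∀ r, X ≤ r → |h r| ≤ K / r) ∧ (∀ r, X ≤ r → |e r| ≤ K / r ^ 2) ∧
    (∀ r, X ≤ r → |s r| ≤ 1) ∧ (∀ r, X ≤ r → |c r| ≤ 1) ∧
    (∀ r, X ≤ r → W r - ε * U r ^ 2 + ν / r ^ 2 = p r + q r * s r + e r)

/-- MODULE G -/
def StmtG : Prop := ∀ n m : ℕ, 1 ≤ n → 1 ≤ m → ∃ W U : ℝ → ℝ, Profile n m W U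

/-- MODULE H1 (standing wave), given a profile -/
def StmtH1 : Prop := ∀ (n m : ℕ), 1 ≤ n → 1 ≤ m → ∀ (W U : ℝ → ℝ), Profile n m W U →
  ∀ δ : ℝ, 0 < δ → δ ≤ m → ∀ η : ℝ, 0 < η → ∃ ε0 : ℝ, 0 < ε0 ∧ ∀ ε : ℝ, 0 < ε → ε < ε0 →
    IsPotential (fun x : E n => W ‖x‖ - ε * U ‖x‖ ^ 2) ∧
    ∃ ψ : ℝ → E n → ℂ, IsBoundedSolution (fun x : E n => W ‖x‖ - ε * U ‖x‖ ^ 2) ψ ∧
      (∃ t x, ψ t x ≠ 0) ∧ IsLocalized δ ψ ∧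
      ∀ t, ∫ x, (‖ψ t x‖ ^ 2 + ‖fderiv ℝ (ψ t) x‖ ^ 2) ≤ η

/-- MODULE H2 (no eigenvalue), given a profile -/
def StmtH2 : Prop := ∀ (n m : ℕ), 1 ≤ n → 1 ≤ m → ∀ (W U : ℝ → ℝ), Profile n m W U →
  ∀ ε0 : ℝ, 0 < ε0 →
    (∀ ε : ℝ, 0 < ε → ε < ε0 → ∀ x : E n, 0 < W ‖x‖ - ε * U ‖x‖ ^ 2) →
    ∃ ε : ℝ, 0 < ε ∧ ε < ε0 ∧ NoEigenvalue (fun x : E n => W ‖x‖ - ε * U ‖x‖ ^ 2)

end

end NLSn
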