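import Pool.Agent.Lib52.NLSn.Defs

/-!
# Nonresonant positive energies (module C)
-/

namespace NLSn

open MeasureTheory Filter Topology Set

noncomputable section

/-- `f = O(r^{-k})` on `[X, ∞)`. -/
def OX (X : ℝ) (k : ℕ) (f : ℝ → ℝ) : Prop := ∃ K, 0 ≤ K ∧ ∀ r, X ≤ r → |f r| ≤ K / r ^ k

lemma OX.congr {X : ℝ} {k : ℕ} {f g : ℝ → ℝ} (hf : OX X k f) (h : ∀ r, X ≤ r → g r = f r) :
    OX X k g := by
  obtain ⟨K, hK, hf⟩ := hf
  exact ⟨K, hK, fun r hr => by rw [h r hr]; exact hf r hr⟩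

lemma OX.add {X : ℝ} {k : ℕ} {f g : ℝ → ℝ} (hf : OX X k f) (hg : OX X k g) :
    OX X k (fun r => f r + g r) := by
  obtain ⟨K, hK, hf⟩ := hf
  obtain ⟨L, hL, hg⟩ := hg
  exact ⟨K + L, by positivity, fun r hr => (abs_add_le _ _).trans (by
    rw [add_div]; exact add_le_add (hf r hr) (hg r hr))⟩

lemma OX.neg {X : ℝ} {k : ℕ} {f : ℝ → ℝ} (hf : OX X k f) : OX X k (fun r => -f r) := by
  obtain ⟨K, hK, hf⟩ := hf
  exact ⟨K, hK, fun r hr => by rw [abs_neg]; exact hf r hr⟩

lemma OX.sub {X : ℝ} {k : ℕ} {f g : ℝ → ℝ} (hf : OX X k f) (hg : OX X k g) :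
    OX X k (fun r => f r - g r) :=
  (hf.add hg.neg).congr (fun r _ => by ring)

lemma OX.mul {X : ℝ} (hX : 0 < X) {k l : ℕ} {f g : ℝ → ℝ} (hf : OX X k f) (hg : OX X l g) :
    OX X (k + l) (fun r => f r * g r) := by
  obtain ⟨K, hK, hf⟩ := hf
  obtain ⟨L, hL, hg⟩ := hg
  refine ⟨K * L, by positivity, fun r hr => ?_⟩
  have hr0 : 0 < r := lt_of_lt_of_le hX hr
  rw [abs_mul]
  calc |f r| * |g r| ≤ (K / r ^ k) * (L / r ^ l) :=
        mul_le_mul (hf r hr) (hg r hr) (abs_nonneg _) (by positivity)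
    _ = K * L / r ^ (k + l) := by rw [pow_add]; field_simp

lemma OX.const {X : ℝ} (a : ℝ) : OX X 0 (fun _ => a) :=
  ⟨|a|, abs_nonneg a, fun r _ => by simp⟩

lemma OX.cmul {X : ℝ} (hX : 0 < X) {k : ℕ} {f : ℝ → ℝ} (a : ℝ) (hf : OX X k f) :
    OX X k (fun r => a * f r) := by
  have := OX.mul hX (OX.const (X := X) a) hf
  simpa using this

lemma OX.bmul {X : ℝ} (hX : 0 < X) {k : ℕ} {f g : ℝ → ℝ} (hf : OX X k f) (hg : OX X 0 g) :
    OX X k (fun r => f r * g r) := by
  have := OX.mul hX hf hg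
  simpa using this

lemma OX.weak {X : ℝ} (hX : 0 < X) {k l : ℕ} {f : ℝ → ℝ} (hf : OX X (k + l) f) : OX X k f := by
  obtain ⟨K, hK, hf⟩ := hf
  refine ⟨K / X ^ l, by positivity, fun r hr => (hf r hr).trans ?_⟩
  have hr0 : 0 < r := lt_of_lt_of_le hX hr
  rw [pow_add, div_div, mul_comm (X ^ l)]
  have : X ^ l ≤ r ^ l := by gcongr
  gcongr

/-- monotonicity on a half line -/
lemma mono_ge {g g' : ℝ → ℝ} {a : ℝ} (h : ∀ x, a ≤ x → HasDerivAt g (g' x) x)
    (h0 : ∀ x, a ≤ x → 0 ≤ g' x) {x y : ℝ} (hx : a ≤ x) (hxy : x ≤ y) : g x ≤ g y := by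
  have hm : MonotoneOn g (Ici a) := by
    apply monotoneOn_of_deriv_nonneg (convex_Ici a)
    · exact fun x hx => (h x hx).continuousAt.continuousWithinAt
    · intro x hx
      rw [interior_Ici] at hx
      exact (h x (le_of_lt hx)).differentiableAt.differentiableWithinAt
    · intro x hx
      rw [interior_Ici] at hx
      rw [(h x (le_of_lt hx)).deriv]
      exact h0 x (le_of_lt hx)
  exact hm hx (le_trans hx hxy) hxy

/-- A function bounded below by `1` near infinity is not integrable. -/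
lemma not_int_of_one_le {g : ℝ → ℝ} {X Y : ℝ} (h : ∀ x, Y ≤ x → 1 ≤ g x) :
    ¬ IntegrableOn g (Ioi X) := by
  intro hg
  have h1 : IntegrableOn g (Ioi (max Y X)) := hg.mono_set (Ioi_subset_Ioi (le_max_right _ _))
  have h2 : IntegrableOn (fun _ : ℝ => (1 : ℝ)) (Ioi (max Y X)) := by
    refine Integrable.mono' h1 aestronglyMeasurable_const ?_
    refine (ae_restrict_iff' measurableSet_Ioi).2 (Eventually.of_forall fun x hx => ?_)
    have : Y ≤ x := (le_max_left _ _).trans (le_of_lt hx)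
    simpa using h x this
  rw [integrableOn_const_iff] at h2
  simp at h2

lemma not_L2_of_prod' {y y' : ℝ → ℝ} {X : ℝ} (hy : ∀ x, X ≤ x → HasDerivAt y (y' x) x)
    {Y δ : ℝ} (hδ : 0 < δ) (hXY : X ≤ Y)
    (h : ∀ x, Y ≤ x → δ ≤ y x * y' x) : ¬ IntegrableOn (fun x => y x ^ 2) (Ioi X) := by
  have hd : ∀ x, Y ≤ x → HasDerivAt (fun x => y x ^ 2 - 2 * δ * x)
      (2 * (y x * y' x) - 2 * δ) x := by
    intro x hx
    have := ((hy x (hXY.trans hx)).pow 2).sub ((hasDerivAt_id' x).const_mul (2 * δ))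
    refine HasDerivAt.congr_deriv this ?_
    simp only [Nat.reduceSub, pow_one, Nat.cast_ofNat]
    ring
  have hm : ∀ x, Y ≤ x → y Y ^ 2 - 2 * δ * Y ≤ y x ^ 2 - 2 * δ * x := by
    intro x hx
    exact mono_ge hd (a := Y) (fun x hx => by linarith [h x hx]) le_rfl hx
  apply not_int_of_one_le (Y := Y + 1 / (2 * δ))
  intro x hx
  have h1 : 0 < 1 / (2 * δ) := by positivity
  have h2 := hm x (by linarith)
  have h3 : 2 * δ * (1 / (2 * δ)) ≤ 2 * δ * (x - Y) := by
    apply mul_le_mul_of_nonneg_left _ (by positivity)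
    linarith
  have h4 : 2 * δ * (1 / (2 * δ)) = 1 := by field_simp
  nlinarith [sq_nonneg (y Y)]

/-- If `y² + y'²` stays away from zero near infinity, `y` is not square integrable. -/
lemma not_L2_of_energy' {y y' w : ℝ → ℝ} {C X : ℝ} (hy : ∀ x, X ≤ x → HasDerivAt y (y' x) x)
    (hy' : ∀ x, X ≤ x → HasDerivAt y' (w x * y x) x) (hw : ∀ x, X ≤ x → |w x| ≤ C)
    {Y d : ℝ} (hd : 0 < d) (hXY : X ≤ Y)
    (h : ∀ x, Y ≤ x → d ≤ y x ^ 2 + y' x ^ 2) :
    ¬ IntegrableOn (fun x => y x ^ 2) (Ioi X) := by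
  intro hint
  have hC : 0 ≤ C := (abs_nonneg _).trans (hw Y hXY)
  have hcont : ContinuousOn (fun x => y x ^ 2) (Ici X) := by
    intro x hx
    exact ((hy x hx).continuousAt.pow 2).continuousWithinAt
  -- the primitive
  set G : ℝ → ℝ := fun x => ∫ z in Y..x, y z ^ 2 with hG
  have hGd : ∀ x, Y + 1 ≤ x → HasDerivAt G (y x ^ 2) x := by
    intro x hx
    have hii : IntervalIntegrable (fun z => y z ^ 2) volume Y x := by
      apply ContinuousOn.intervalIntegrable
      apply hcont.mono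
      rw [uIcc_of_le (by linarith)]
      intro z hz
      exact hXY.trans hz.1
    refine intervalIntegral.integral_hasDerivAt_right hii ?_
      ((hy x (by linarith)).continuousAt.pow 2)
    have hio : IsOpen (Ioi X) := isOpen_Ioi
    exact (hcont.mono Ioi_subset_Ici_self).stronglyMeasurableAtFilter hio x
      (by simp only [mem_Ioi]; linarith)
  set M : ℝ := ∫ z in Ioi X, y z ^ 2 with hM
  have hGM : ∀ x, Y ≤ x → G x ≤ M := by
    intro x hx
    rw [hG, hM]
    simp only
    rw [intervalIntegral.integral_of_le hx]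
    apply setIntegral_mono_set hint
    · exact Eventually.of_forall fun z => sq_nonneg _
    · apply Eventually.of_forall
      intro z hz
      exact lt_of_le_of_lt hXY hz.1
  set Z := Y + 1 with hZ
  have hH : ∀ x, Z ≤ x → HasDerivAt (fun x => y x * y' x - d * x + (1 + C) * G x)
      (y' x ^ 2 + w x * y x ^ 2 - d + (1 + C) * y x ^ 2) x := by
    intro x hx
    have hx1 : X ≤ x := by linarith
    have := (((hy x hx1).mul (hy' x hx1)).sub ((hasDerivAt_id' x).const_mul d)).add
      ((hGd x hx).const_mul (1 + C))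
    refine HasDerivAt.congr_deriv this ?_
    ring
  have hGZ : 0 ≤ G Z := by
    rw [hG]
    simp only
    apply intervalIntegral.integral_nonneg (by linarith)
    intro z _
    positivity
  have hHm : ∀ x, Z ≤ x → y Z * y' Z - d * Z ≤ y x * y' x - d * x + (1 + C) * G x := by
    intro x hx
    have h1 := mono_ge hH (a := Z) (fun x hx => by
      have h1 := h x (by linarith)
      have h2 := (abs_le.1 (hw x (by linarith))).1
      have h3 : -C * y x ^ 2 ≤ w x * y x ^ 2 := by
        apply mul_le_mul_of_nonneg_right _ (sq_nonneg _)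
        linarith
      nlinarith) le_rfl hx
    have h2 : 0 ≤ (1 + C) * G Z := by positivity
    linarith
  have hMn : 0 ≤ M := by
    rw [hM]
    exact setIntegral_nonneg measurableSet_Ioi fun z _ => sq_nonneg _
  have hnn : 0 ≤ (1 + (1 + C) * M + |y Z * y' Z|) / d := by positivity
  refine not_L2_of_prod' hy (Y := Z + (1 + (1 + C) * M + |y Z * y' Z|) / d) one_pos
    (by linarith) ?_ hint
  intro x hx
  have h6 : Z ≤ x := by linarith
  have h7 := hHm x h6
  have h8 := hGM x (by linarith)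
  have h9 : (1 + C) * G x ≤ (1 + C) * M := by gcongr
  have h10 : d * ((1 + (1 + C) * M + |y Z * y' Z|) / d) ≤ d * (x - Z) := by
    apply mul_le_mul_of_nonneg_left _ hd.le
    linarith
  have h11 : d * ((1 + (1 + C) * M + |y Z * y' Z|) / d) =
      1 + (1 + C) * M + |y Z * y' Z| := by field_simp
  have h12 := neg_abs_le (y Z * y' Z)
  nlinarith

lemma small_ge {K d : ℝ} (hK : 0 ≤ K) (hd : 0 < d) {X : ℝ} (hX : 0 < X) :
    ∀ x, X + K / d ≤ x → K / x ≤ d := by
  intro x hx
  have h0 : 0 ≤ K / d := by positivity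
  have hx0 : 0 < x := by linarith
  rw [div_le_iff₀ hx0]
  have h5 : d * (K / d) = K := by field_simp
  calc K = d * (K / d) := h5.symm
    _ ≤ d * x := by gcongr; linarith

/-- MODULE C -/
theorem stmtC : StmtC := by
  intro p p' q q' s c h e y y' lam X K hX hlam hlam1 hp hq hs hc bp bp' bq bq' bh be bs bc
    hy hy' hint
  have hKn : 0 ≤ K := by
    have h1 := (abs_nonneg _).trans (bp X le_rfl)
    rwa [le_div_iff₀ hX, zero_mul] at h1
  set b := 1 / (lam - 1) with hb
  set a := lam * b / 2 with ha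
  set c0 := -b / 2 with hc0
  have hlam1' : lam - 1 ≠ 0 := sub_ne_zero.2 hlam1
  have hb1 : b * (lam - 1) = 1 := by rw [hb]; field_simp
  have Op : OX X 1 p := ⟨K, hKn, fun r hr => by simpa using bp r hr⟩
  have Op' : OX X 2 p' := ⟨K, hKn, bp'⟩
  have Oq : OX X 1 q := ⟨K, hKn, fun r hr => by simpa using bq r hr⟩
  have Oq' : OX X 2 q' := ⟨K, hKn, bq'⟩
  have Oh : OX X 1 h := ⟨K, hKn, fun r hr => by simpa using bh r hr⟩
  have Oe : OX X 2 e := ⟨K, hKn, be⟩
  have Os : OX X 0 s := ⟨1, zero_le_one, fun r hr => by simpa using bs r hr⟩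
  have Oc : OX X 0 c := ⟨1, zero_le_one, fun r hr => by simpa using bc r hr⟩
  set P : ℝ → ℝ := fun r => p r + q r * s r + e r with hP
  have OP : OX X 1 P := (Op.add (OX.bmul hX Oq Os)).add (OX.weak hX (k := 1) (l := 1) Oe)
  set c11 : ℝ → ℝ := fun r => -p' r - q' r * (a * s r) -
    q r * (2 * a * (h r * c r) + b * (P r * c r)) with hc11
  set c12 : ℝ → ℝ := fun r => 2 * e r - q' r * (b * c r) -
    q r * (-(2 * b) * (h r * s r) + 2 * c0 * (P r * s r)) with hc12
  set c22 : ℝ → ℝ := fun r => -(q' r * (c0 * s r)) - q r * (2 * c0 * (h r * c r)) with hc22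
  have O11 : OX X 2 c11 := by
    refine (Op'.neg.sub (OX.bmul hX Oq' (OX.cmul hX a Os))).sub ?_
    exact OX.mul hX (k := 1) (l := 1) Oq
      ((OX.cmul hX (2 * a) (OX.bmul hX Oh Oc)).add (OX.cmul hX b (OX.bmul hX OP Oc)))
  have O12 : OX X 2 c12 := by
    refine ((OX.cmul hX 2 Oe).sub (OX.bmul hX Oq' (OX.cmul hX b Oc))).sub ?_
    exact OX.mul hX (k := 1) (l := 1) Oq
      ((OX.cmul hX (-(2 * b)) (OX.bmul hX Oh Os)).add (OX.cmul hX (2 * c0) (OX.bmul hX OP Os)))
  have O22 : OX X 2 c22 := by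
    refine (OX.bmul hX Oq' (OX.cmul hX c0 Os)).neg.sub ?_
    exact OX.mul hX (k := 1) (l := 1) Oq (OX.cmul hX (2 * c0) (OX.bmul hX Oh Oc))
  set En : ℝ → ℝ := fun r => y' r ^ 2 + (lam - p r) * y r ^ 2 -
    q r * (a * y r ^ 2 * s r + b * (y r * y' r) * c r + c0 * y' r ^ 2 * s r) with hEn
  have hd : ∀ r, X ≤ r → HasDerivAt En
      (c11 r * y r ^ 2 + c12 r * (y r * y' r) + c22 r * y' r ^ 2) r := by
    intro r hr
    have h1 := (hy' r hr).pow 2
    have h2 := (((hp r hr).const_sub lam).mul ((hy r hr).pow 2))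
    have h3 := (((hy r hr).pow 2).const_mul a).mul (hs r hr)
    have h4 := (((hy r hr).mul (hy' r hr)).const_mul b).mul (hc r hr)
    have h5 := (((hy' r hr).pow 2).const_mul c0).mul (hs r hr)
    have hh := (h1.add h2).sub ((hq r hr).mul ((h3.add h4).add h5))
    refine HasDerivAt.congr_deriv hh ?_
    simp only [Pi.pow_apply, Pi.mul_apply, Pi.add_apply, Nat.reduceSub, pow_one, Nat.cast_ofNat]
    simp only [hc11, hc12, hc22, hP]
    have hc' : c0 = -b / 2 := hc0
    have ha' : a = lam * b / 2 := ha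
    rw [hc', ha']
    linear_combination (-2 * q r * (y r * y' r) * s r) * hb1
  obtain ⟨K1, hK1, h11⟩ := O11
  obtain ⟨K2, hK2, h12⟩ := O12
  obtain ⟨K3, hK3, h22⟩ := O22
  set N : ℝ → ℝ := fun x => y x ^ 2 + y' x ^ 2 with hN
  have hN0 : ∀ x, 0 ≤ N x := fun x => by rw [hN]; positivity
  have hyy : ∀ x, |y x * y' x| ≤ N x := by
    intro x
    rw [hN, abs_le]
    constructor <;> nlinarith [sq_nonneg (y x + y' x), sq_nonneg (y x - y' x)]
  set K4 := K1 + K2 + K3 with hK4
  have hK0 : 0 ≤ K4 := by rw [hK4]; positivity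
  have hE' : ∀ x, X ≤ x → |c11 x * y x ^ 2 + c12 x * (y x * y' x) + c22 x * y' x ^ 2|
      ≤ K4 / x ^ 2 * N x := by
    intro x hx
    have hx0 : 0 < x := lt_of_lt_of_le hX hx
    have a1 : |c11 x * y x ^ 2| ≤ K1 / x ^ 2 * N x := by
      rw [abs_mul, abs_of_nonneg (sq_nonneg (y x))]
      apply mul_le_mul (h11 x hx) _ (sq_nonneg _) (by positivity)
      rw [hN]; simp only; linarith [sq_nonneg (y' x)]
    have a2 : |c12 x * (y x * y' x)| ≤ K2 / x ^ 2 * N x := by
      rw [abs_mul]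
      exact mul_le_mul (h12 x hx) (hyy x) (abs_nonneg _) (by positivity)
    have a3 : |c22 x * y' x ^ 2| ≤ K3 / x ^ 2 * N x := by
      rw [abs_mul, abs_of_nonneg (sq_nonneg (y' x))]
      apply mul_le_mul (h22 x hx) _ (sq_nonneg _) (by positivity)
      rw [hN]; simp only; linarith [sq_nonneg (y x)]
    calc _ ≤ |c11 x * y x ^ 2| + |c12 x * (y x * y' x)| +
          |c22 x * y' x ^ 2| := abs_add_three _ _ _
      _ ≤ K1 / x ^ 2 * N x + K2 / x ^ 2 * N x + K3 / x ^ 2 * N x := by linarith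
      _ = K4 / x ^ 2 * N x := by rw [hK4]; ring
  set G : ℝ := K + K * (|a| + |b| + |c0|) with hG
  have hG0 : 0 ≤ G := by rw [hG]; positivity
  -- comparison of `En` with `N`
  have hEN : ∀ x, X ≤ x → |En x - (y' x ^ 2 + lam * y x ^ 2)| ≤ G / x * N x := by
    intro x hx
    have hx0 : 0 < x := lt_of_lt_of_le hX hx
    have e1 : En x - (y' x ^ 2 + lam * y x ^ 2) = -(p x * y x ^ 2) -
      q x * (a * y x ^ 2 * s x + b * (y x * y' x) * c x + c0 * y' x ^ 2 * s x) := by
      simp only [hEn]; ring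
    have n1 : y x ^ 2 ≤ N x := by rw [hN]; simp only; linarith [sq_nonneg (y' x)]
    have n2 : y' x ^ 2 ≤ N x := by rw [hN]; simp only; linarith [sq_nonneg (y x)]
    have hsx := bs x hx
    have hcx := bc x hx
    have hN0x := hN0 x
    have a1 : |a * y x ^ 2 * s x| ≤ |a| * N x := by
      rw [abs_mul, abs_mul, abs_of_nonneg (sq_nonneg (y x))]
      calc |a| * y x ^ 2 * |s x| ≤ |a| * N x * 1 := by gcongr
        _ = _ := mul_one _
    have a2 : |b * (y x * y' x) * c x| ≤ |b| * N x := by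
      rw [abs_mul, abs_mul b]
      calc |b| * |y x * y' x| * |c x| ≤ |b| * N x * 1 := by
            have := hyy x
            gcongr
        _ = _ := mul_one _
    have a3 : |c0 * y' x ^ 2 * s x| ≤ |c0| * N x := by
      rw [abs_mul, abs_mul, abs_of_nonneg (sq_nonneg (y' x))]
      calc |c0| * y' x ^ 2 * |s x| ≤ |c0| * N x * 1 := by gcongr
        _ = _ := mul_one _
    have a4 : |a * y x ^ 2 * s x + b * (y x * y' x) * c x + c0 * y' x ^ 2 * s x| ≤
        (|a| + |b| + |c0|) * N x := by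
      refine (abs_add_three _ _ _).trans ?_
      linarith
    have hp1 := bp x hx
    have hq1 := bq x hx
    have a5 : |p x * y x ^ 2| ≤ K / x * N x := by
      rw [abs_mul, abs_of_nonneg (sq_nonneg (y x))]
      exact mul_le_mul hp1 n1 (sq_nonneg _) (by positivity)
    have a6 : |q x * (a * y x ^ 2 * s x + b * (y x * y' x) * c x + c0 * y' x ^ 2 * s x)| ≤
        (K / x) * ((|a| + |b| + |c0|) * N x) := by
      rw [abs_mul]
      exact mul_le_mul hq1 a4 (abs_nonneg _) (by positivity)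
    rw [e1]
    refine (abs_sub _ _).trans ?_
    rw [abs_neg]
    calc _ ≤ K / x * N x + (K / x) * ((|a| + |b| + |c0|) * N x) := add_le_add a5 a6
      _ = G / x * N x := by rw [hG]; ring
  set m0 : ℝ := min 1 lam / 2 with hm0
  have hm0p : 0 < m0 := by
    rw [hm0]; have : 0 < min 1 lam := lt_min one_pos hlam
    positivity
  set X0 : ℝ := X + G / m0 with hX0
  have hXX0 : X ≤ X0 := by
    have : 0 ≤ G / m0 := by positivity
    linarith
  have hX0p : 0 < X0 := lt_of_lt_of_le hX hXX0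
  have hsm : ∀ x, X0 ≤ x → G / x ≤ m0 := small_ge hG0 hm0p hX
  have hlow : ∀ x, X0 ≤ x → m0 * N x ≤ En x := by
    intro x hx
    have h1 := (abs_le.1 (hEN x (hXX0.trans hx))).1
    have h2 := hsm x hx
    have h3 : G / x * N x ≤ m0 * N x := by
      have := hN0 x
      gcongr
    have h4 : 2 * m0 * N x ≤ y' x ^ 2 + lam * y x ^ 2 := by
      have e1 : 2 * m0 = min 1 lam := by rw [hm0]; ring
      have e2 : min 1 lam ≤ 1 := min_le_left _ _
      have e3 : min 1 lam ≤ lam := min_le_right _ _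
      rw [e1, hN]
      simp only
      nlinarith [sq_nonneg (y x), sq_nonneg (y' x)]
    linarith
  have hup : ∀ x, X0 ≤ x → En x ≤ (1 + lam + m0) * N x := by
    intro x hx
    have h1 := (abs_le.1 (hEN x (hXX0.trans hx))).2
    have h2 := hsm x hx
    have h3 : G / x * N x ≤ m0 * N x := by
      have := hN0 x
      gcongr
    have h4 : y' x ^ 2 + lam * y x ^ 2 ≤ (1 + lam) * N x := by
      rw [hN]
      simp only
      nlinarith [sq_nonneg (y x), sq_nonneg (y' x), mul_nonneg hlam.le (sq_nonneg (y' x))]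
    linarith
  by_cases hz : N X0 = 0
  · refine ⟨X0, hXX0, ?_, ?_⟩
    · rw [hN] at hz; simp only at hz
      nlinarith [sq_nonneg (y X0), sq_nonneg (y' X0)]
    · rw [hN] at hz; simp only at hz
      nlinarith [sq_nonneg (y X0), sq_nonneg (y' X0)]
  · exfalso
    have hNp : 0 < N X0 := lt_of_le_of_ne (hN0 X0) (Ne.symm hz)
    set E0 := En X0 with hE0
    have hE0p : 0 < E0 := lt_of_lt_of_le (by positivity) (hlow X0 le_rfl)
    set k := K4 / m0 with hk
    have hk0 : 0 ≤ k := by rw [hk]; positivity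
    have hinv : ∀ x, X0 ≤ x → HasDerivAt (fun x => k * (-(1 / x))) (k / x ^ 2) x := by
      intro x hx
      have hx0 : x ≠ 0 := (lt_of_lt_of_le hX0p hx).ne'
      have h1 := ((hasDerivAt_inv hx0).neg.const_mul k)
      have h2 : (fun x : ℝ => k * (-(1 / x))) = fun x => k * (-x⁻¹) := by
        funext x; rw [one_div]
      rw [h2]
      refine HasDerivAt.congr_deriv h1 ?_
      field_simp
    have hd2 : ∀ x, X0 ≤ x → HasDerivAt (fun x => En x * Real.exp (k * (-(1 / x))))
        (((c11 x * y x ^ 2 + c12 x * (y x * y' x) + c22 x * y' x ^ 2) +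
          k / x ^ 2 * En x) * Real.exp (k * (-(1 / x)))) x := by
      intro x hx
      refine HasDerivAt.congr_deriv ((hd x (hXX0.trans hx)).mul ((hinv x hx).exp)) ?_
      ring
    have hmon : ∀ x, X0 ≤ x → E0 * Real.exp (k * (-(1 / X0))) ≤
        En x * Real.exp (k * (-(1 / x))) := by
      intro x hx
      refine mono_ge hd2 (a := X0) (fun z hz => ?_) le_rfl hx
      apply mul_nonneg _ (Real.exp_pos _).le
      have h1 := (abs_le.1 (hE' z (hXX0.trans hz))).1
      have h2 := hlow z hz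
      have h3 : K4 / z ^ 2 * N z ≤ k / z ^ 2 * En z := by
        have h4 : k * m0 = K4 := by rw [hk]; field_simp
        have hz0 : 0 < z := lt_of_lt_of_le hX0p hz
        calc K4 / z ^ 2 * N z = k / z ^ 2 * (m0 * N z) := by rw [← h4]; ring
          _ ≤ k / z ^ 2 * En z := by gcongr
      linarith
    have hwb : ∀ x, X ≤ x → |p x + q x * s x + e x - lam| ≤ (K / X + K / X + K / X ^ 2) + lam := by
      intro x hx
      have hx0 : 0 < x := lt_of_lt_of_le hX hx
      have b1 : |p x| ≤ K / X := (bp x hx).trans (by gcongr)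
      have b2 : |q x * s x| ≤ K / X := by
        rw [abs_mul]
        calc |q x| * |s x| ≤ (K / x) * 1 := mul_le_mul (bq x hx) (bs x hx) (abs_nonneg _)
              (by positivity)
          _ = K / x := mul_one _
          _ ≤ K / X := by gcongr
      have b3 : |e x| ≤ K / X ^ 2 := (be x hx).trans (by gcongr)
      calc |p x + q x * s x + e x - lam| ≤ |p x + q x * s x + e x| + |lam| := abs_sub _ _
        _ ≤ (|p x| + |q x * s x| + |e x|) + |lam| := by gcongr; exact abs_add_three _ _ _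
        _ ≤ _ := by rw [abs_of_pos hlam]; linarith
    refine not_L2_of_energy' hy hy' hwb (Y := X0)
      (d := E0 * Real.exp (k * (-(1 / X0))) / (1 + lam + m0)) (by positivity) hXX0 ?_ hint
    intro x hx
    have h1 := hmon x hx
    have h2 := hup x hx
    have hx0 : 0 < x := lt_of_lt_of_le hX0p hx
    have h4 : Real.exp (k * (-(1 / x))) ≤ 1 := by
      rw [Real.exp_le_one_iff]
      have : 0 ≤ k * (1 / x) := by positivity
      linarith
    have hEx : 0 ≤ En x := le_trans (by have := hN0 x; positivity) (hlow x hx)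
    rw [div_le_iff₀ (by positivity)]
    calc E0 * Real.exp (k * (-(1 / X0))) ≤ En x * Real.exp (k * (-(1 / x))) := h1
      _ ≤ En x * 1 := by gcongr
      _ = En x := mul_one _
      _ ≤ (1 + lam + m0) * N x := h2
      _ = (y x ^ 2 + y' x ^ 2) * (1 + lam + m0) := by rw [hN]; ring

end

end NLSn
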