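import Pool.Agent.Lib52.NLSn.NonRes

/-!
# The explicit functions on `(R, ∞)`
-/

namespace NLSn

open MeasureTheory Filter Topology Set

noncomputable section

/-- `1/r` -/
def ri (r : ℝ) : ℝ := 1 / r
/-- `η = 1 - R/r` -/
def et (R r : ℝ) : ℝ := 1 - R * ri r
/-- the phase, `θ' = η²` -/
def th (R r : ℝ) : ℝ := r - R ^ 2 / r - 2 * R * Real.log (r / R)
/-- `cos θ` -/
def cc (R r : ℝ) : ℝ := Real.cos (th R r)
/-- `sin θ` -/
def ss (R r : ℝ) : ℝ := Real.sin (th R r)
/-- `S' = η² cos² θ` -/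
def SS (R r : ℝ) : ℝ := th R r / 2 + ss R r * cc R r / 2
/-- `D = 1 + S²` -/
def DD (R r : ℝ) : ℝ := 1 + SS R r ^ 2
/-- `1/D` -/
def Di (R r : ℝ) : ℝ := 1 / DD R r
/-- `S/D` -/
def QQ (R r : ℝ) : ℝ := SS R r / DD R r
/-- `1/η` -/
def om (R r : ℝ) : ℝ := 1 / et R r

section
variable {R r : ℝ}

lemma et_eq (hr : 0 < r) : et R r = (r - R) / r := by
  unfold et ri; field_simp

lemma et_pos (hR : 0 < R) (hr : R < r) : 0 < et R r := by
  rw [et_eq (hR.trans hr)]
  exact div_pos (by linarith) (hR.trans hr)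

lemma et_nonneg (hR : 0 < R) (hr : R ≤ r) : 0 ≤ et R r := by
  rw [et_eq (lt_of_lt_of_le hR hr)]
  exact div_nonneg (by linarith) (lt_of_lt_of_le hR hr).le

lemma et_le (hR : 0 < R) (hr : R ≤ r) : et R r ≤ 1 := by
  unfold et ri
  have h0 : 0 < r := lt_of_lt_of_le hR hr
  have : 0 ≤ R * (1 / r) := by positivity
  linarith

lemma om_mul (hR : 0 < R) (hr : R < r) : om R r * et R r = 1 := by
  unfold om
  rw [one_div, inv_mul_cancel₀ (et_pos hR hr).ne']

lemma DD_pos : 0 < DD R r := by unfold DD; positivity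

lemma DD_ge_one : 1 ≤ DD R r := by unfold DD; nlinarith [sq_nonneg (SS R r)]

lemma Di_pos : 0 < Di R r := by unfold Di; exact div_pos one_pos DD_pos

lemma Di_le_one : Di R r ≤ 1 := by
  unfold Di
  rw [div_le_one DD_pos]
  exact DD_ge_one

lemma Di_mul : Di R r * DD R r = 1 := by
  unfold Di
  rw [one_div, inv_mul_cancel₀ DD_pos.ne']

lemma QQ_eq : QQ R r = SS R r * Di R r := by unfold QQ Di; ring

lemma QQ_sq : QQ R r ^ 2 = Di R r - Di R r ^ 2 := by
  have h := Di_mul (R := R) (r := r)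
  rw [QQ_eq]
  unfold DD at h
  have h2 : SS R r ^ 2 * Di R r = 1 - Di R r := by linarith
  calc (SS R r * Di R r) ^ 2 = (SS R r ^ 2 * Di R r) * Di R r := by ring
    _ = Di R r - Di R r ^ 2 := by rw [h2]; ring

lemma QQ_abs : |QQ R r| ≤ 1 / 2 := by
  have h := QQ_sq (R := R) (r := r)
  apply abs_le_of_sq_le_sq _ (by norm_num)
  nlinarith [sq_nonneg (Di R r - 1 / 2)]

lemma cs_sq : cc R r ^ 2 + ss R r ^ 2 = 1 := by
  unfold cc ss
  exact Real.cos_sq_add_sin_sq _

lemma cc_abs : |cc R r| ≤ 1 := Real.abs_cos_le_one _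
lemma ss_abs : |ss R r| ≤ 1 := Real.abs_sin_le_one _

/-! ### derivatives -/

lemma hasDerivAt_ri (hr : r ≠ 0) : HasDerivAt ri (-(ri r ^ 2)) r := by
  have h := hasDerivAt_inv hr
  have e : ri = fun x => x⁻¹ := by funext x; unfold ri; rw [one_div]
  rw [e]
  refine HasDerivAt.congr_deriv h ?_
  field_simp

lemma hasDerivAt_et (hr : r ≠ 0) : HasDerivAt (et R) (R * ri r ^ 2) r := by
  have h := ((hasDerivAt_ri hr).const_mul R).const_sub 1
  refine HasDerivAt.congr_deriv h ?_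
  ring

lemma hasDerivAt_th (hR : 0 < R) (hr : 0 < r) : HasDerivAt (th R) (et R r ^ 2) r := by
  have h1 : HasDerivAt (fun x : ℝ => R ^ 2 / x) (R ^ 2 * (-(ri r ^ 2))) r := by
    have := (hasDerivAt_ri hr.ne').const_mul (R ^ 2)
    have e : (fun x : ℝ => R ^ 2 / x) = fun x => R ^ 2 * ri x := by
      funext x; unfold ri; ring
    rw [e]; exact this
  have h2 : HasDerivAt (fun x : ℝ => x / R) (1 / R) r := by
    simpa using (hasDerivAt_id r).div_const R
  have h3 := (h2.log (by positivity)).const_mul (2 * R)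
  have h4 := ((hasDerivAt_id' r).sub h1).sub h3
  refine HasDerivAt.congr_deriv h4 ?_
  unfold et ri
  field_simp
  ring

lemma hasDerivAt_cc (hR : 0 < R) (hr : 0 < r) :
    HasDerivAt (cc R) (-(ss R r * et R r ^ 2)) r := by
  refine HasDerivAt.congr_deriv (hasDerivAt_th hR hr).cos ?_
  unfold ss; ring

lemma hasDerivAt_ss (hR : 0 < R) (hr : 0 < r) :
    HasDerivAt (ss R) (cc R r * et R r ^ 2) r := (hasDerivAt_th hR hr).sin

lemma hasDerivAt_SS (hR : 0 < R) (hr : 0 < r) :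
    HasDerivAt (SS R) (et R r ^ 2 * cc R r ^ 2) r := by
  have h := ((hasDerivAt_th hR hr).div_const 2).add
    (((hasDerivAt_ss hR hr).mul (hasDerivAt_cc hR hr)).div_const 2)
  refine HasDerivAt.congr_deriv h ?_
  have h1 := cs_sq (R := R) (r := r)
  linear_combination (-et R r ^ 2 / 2) * h1

lemma hasDerivAt_DD (hR : 0 < R) (hr : 0 < r) :
    HasDerivAt (DD R) (2 * SS R r * (et R r ^ 2 * cc R r ^ 2)) r := by
  refine HasDerivAt.congr_deriv (((hasDerivAt_SS hR hr).pow 2).const_add (1 : ℝ)) ?_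
  ring

lemma hasDerivAt_Di (hR : 0 < R) (hr : 0 < r) :
    HasDerivAt (Di R) (-(2 * QQ R r * (et R r ^ 2 * cc R r ^ 2) * Di R r)) r := by
  have h := (hasDerivAt_DD hR hr).inv DD_pos.ne'
  have h4 : Di R = fun x => (DD R x)⁻¹ := by
    funext x; unfold Di; rw [one_div]
  rw [h4]
  refine HasDerivAt.congr_deriv h ?_
  unfold QQ
  have := (DD_pos (R := R) (r := r)).ne'
  field_simp

lemma hasDerivAt_QQ (hR : 0 < R) (hr : 0 < r) :
    HasDerivAt (QQ R) (et R r ^ 2 * cc R r ^ 2 * Di R r -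
      2 * QQ R r ^ 2 * (et R r ^ 2 * cc R r ^ 2)) r := by
  have h := (hasDerivAt_SS hR hr).mul (hasDerivAt_Di hR hr)
  have h4 : QQ R = fun x => SS R x * Di R x := by
    funext x; exact QQ_eq
  rw [h4]
  refine HasDerivAt.congr_deriv h ?_
  simp only [QQ_eq]
  ring

lemma hasDerivAt_om (hR : 0 < R) (hr : R < r) :
    HasDerivAt (om R) (-(R * ri r ^ 2 * om R r ^ 2)) r := by
  have h := (hasDerivAt_et (R := R) (hR.trans hr).ne').inv (et_pos hR hr).ne'
  have h4 : om R = fun x => (et R x)⁻¹ := by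
    funext x; unfold om; rw [one_div]
  rw [h4]
  refine HasDerivAt.congr_deriv h ?_
  have := (et_pos hR hr).ne'
  field_simp

lemma hasDerivAt_Dipow (hR : 0 < R) (hr : 0 < r) (m : ℕ) :
    HasDerivAt (fun x => Di R x ^ m)
      (-(2 * m * QQ R r * (et R r ^ 2 * cc R r ^ 2) * Di R r ^ m)) r := by
  rcases m with _ | m
  · simpa using hasDerivAt_const r (1 : ℝ)
  · refine HasDerivAt.congr_deriv ((hasDerivAt_Di hR hr).pow (m + 1)) ?_
    simp only [Nat.add_sub_cancel]
    push_cast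
    ring

/-! ### growth of the phase -/

lemma th_R (hR : 0 < R) : th R R = 0 := by
  unfold th
  rw [div_self hR.ne', Real.log_one]
  field_simp
  ring

lemma SS_R (hR : 0 < R) : SS R R = 0 := by
  unfold SS ss cc
  rw [th_R hR]
  simp

lemma th_ge (hR : 0 < R) (hr : R ≤ r) : (r - R) ^ 3 / (3 * r ^ 2) ≤ th R r := by
  have hd : ∀ x, R ≤ x → HasDerivAt (fun x => th R x - (x - R) ^ 3 / (3 * x ^ 2))
      (2 * (x - R) ^ 3 / (3 * x ^ 3)) x := by
    intro x hx
    have hx0 : 0 < x := lt_of_lt_of_le hR hx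
    have h1 : HasDerivAt (fun x : ℝ => (x - R) ^ 3) (3 * (x - R) ^ 2) x := by
      have := ((hasDerivAt_id' x).sub_const R).fun_pow 3
      refine HasDerivAt.congr_deriv this ?_
      simp
    have h2 : HasDerivAt (fun x : ℝ => 3 * x ^ 2) (3 * (2 * x)) x := by
      have := (hasDerivAt_pow 2 x).const_mul (3 : ℝ)
      simpa using this
    have h3 := h1.div h2 (by positivity)
    have h4 := (hasDerivAt_th hR hx0).sub h3
    refine HasDerivAt.congr_deriv h4 ?_
    rw [et_eq hx0]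
    field_simp
    ring
  have := mono_ge hd (a := R) (fun x hx => by
    have hx0 : 0 < x := lt_of_lt_of_le hR hx
    have : 0 ≤ x - R := by linarith
    positivity) le_rfl hr
  simp only [th_R hR, sub_self] at this
  norm_num at this
  linarith

lemma th_nonneg (hR : 0 < R) (hr : R ≤ r) : 0 ≤ th R r := by
  have h := th_ge hR hr
  have h1 : 0 ≤ r - R := by linarith
  have h2 : 0 < r := lt_of_lt_of_le hR hr
  exact le_trans (by positivity) h

lemma SS_nonneg (hR : 0 < R) (hr : R ≤ r) : 0 ≤ SS R r := by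
  have := mono_ge (g := SS R) (a := R) (fun x hx => hasDerivAt_SS hR (lt_of_lt_of_le hR hx))
    (fun x _ => by positivity) le_rfl hr
  rwa [SS_R hR] at this

lemma sc_le : ss R r * cc R r ≤ 1 / 2 := by
  have := cs_sq (R := R) (r := r)
  nlinarith [sq_nonneg (cc R r - ss R r)]

lemma sc_ge : -(1 / 2) ≤ ss R r * cc R r := by
  have := cs_sq (R := R) (r := r)
  nlinarith [sq_nonneg (cc R r + ss R r)]

lemma one_add_th_le : 1 + th R r ≤ 2 * SS R r + 3 / 2 := by
  have := sc_ge (R := R) (r := r)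
  unfold SS
  linarith

lemma et4_Q (hR : 0 < R) (hr : R < r) : et R r ^ 4 * |QQ R r| ≤ 9 / r := by
  have hr0 : 0 < r := hR.trans hr
  have h1 := th_ge hR hr.le
  have h2 := one_add_th_le (R := R) (r := r)
  have h3 := SS_nonneg hR hr.le
  have h4 := et_pos hR hr
  have h5 := et_le hR hr.le
  have h6 : (r - R) ^ 3 / (3 * r ^ 2) = r * et R r ^ 3 / 3 := by
    rw [et_eq hr0]; field_simp
  rw [h6] at h1
  -- `|Q| (1+θ) ≤ 3`
  have h7 : |QQ R r| * (1 + th R r) ≤ 3 := by
    have hq : |QQ R r| = SS R r * Di R r := by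
      rw [QQ_eq, abs_of_nonneg (mul_nonneg h3 Di_pos.le)]
    rw [hq]
    have h8 : SS R r * Di R r * (1 + th R r) ≤ SS R r * Di R r * (2 * SS R r + 3 / 2) := by
      have := mul_nonneg h3 (Di_pos (R := R) (r := r)).le
      gcongr
    refine h8.trans ?_
    have hD := Di_mul (R := R) (r := r)
    have hDp := Di_pos (R := R) (r := r)
    unfold DD at hD
    nlinarith [sq_nonneg (SS R r - 1), mul_nonneg hDp.le (sq_nonneg (SS R r - 3 / 4)), hDp]
  have h9 : et R r ^ 4 * |QQ R r| * (r * et R r ^ 3 / 3) ≤ 3 * et R r ^ 4 := by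
    have : |QQ R r| * (r * et R r ^ 3 / 3) ≤ 3 := by
      refine le_trans ?_ h7
      have := abs_nonneg (QQ R r)
      gcongr
      linarith
    calc et R r ^ 4 * |QQ R r| * (r * et R r ^ 3 / 3)
        = et R r ^ 4 * (|QQ R r| * (r * et R r ^ 3 / 3)) := by ring
      _ ≤ et R r ^ 4 * 3 := by gcongr
      _ = 3 * et R r ^ 4 := by ring
  rw [le_div_iff₀ hr0]
  have h10 : 0 < et R r ^ 3 := by positivity
  have h11 : et R r ^ 4 * |QQ R r| * r * et R r ^ 3 ≤ 9 * et R r ^ 3 := by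
    have : 9 * et R r ^ 4 ≤ 9 * et R r ^ 3 := by
      have : et R r ^ 4 ≤ et R r ^ 3 := pow_le_pow_of_le_one h4.le h5 (by norm_num)
      linarith
    nlinarith
  exact le_of_mul_le_mul_right h11 h10

lemma et4_Di (hR : 0 < R) (hr : R < r) : et R r ^ 4 * Di R r ≤ 9 / r := by
  have hr0 : 0 < r := hR.trans hr
  have h1 := th_ge hR hr.le
  have h2 := one_add_th_le (R := R) (r := r)
  have h3 := SS_nonneg hR hr.le
  have h4 := et_pos hR hr
  have h5 := et_le hR hr.le
  have h6 : (r - R) ^ 3 / (3 * r ^ 2) = r * et R r ^ 3 / 3 := by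
    rw [et_eq hr0]; field_simp
  rw [h6] at h1
  have hDp := Di_pos (R := R) (r := r)
  have h7 : Di R r * (1 + th R r) ≤ 3 := by
    have h8 : Di R r * (1 + th R r) ≤ Di R r * (2 * SS R r + 3 / 2) := by
      gcongr
    refine h8.trans ?_
    have hD := Di_mul (R := R) (r := r)
    unfold DD at hD
    nlinarith [mul_nonneg hDp.le (sq_nonneg (SS R r - 1)), hDp]
  have h9 : et R r ^ 4 * Di R r * (r * et R r ^ 3 / 3) ≤ 3 * et R r ^ 4 := by
    have : Di R r * (r * et R r ^ 3 / 3) ≤ 3 := by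
      refine le_trans ?_ h7
      gcongr
      linarith
    calc et R r ^ 4 * Di R r * (r * et R r ^ 3 / 3)
        = et R r ^ 4 * (Di R r * (r * et R r ^ 3 / 3)) := by ring
      _ ≤ et R r ^ 4 * 3 := by gcongr
      _ = 3 * et R r ^ 4 := by ring
  rw [le_div_iff₀ hr0]
  have h10 : 0 < et R r ^ 3 := by positivity
  have h11 : et R r ^ 4 * Di R r * r * et R r ^ 3 ≤ 9 * et R r ^ 3 := by
    have : 9 * et R r ^ 4 ≤ 9 * et R r ^ 3 := by
      have : et R r ^ 4 ≤ et R r ^ 3 := pow_le_pow_of_le_one h4.le h5 (by norm_num)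
      linarith
    nlinarith
  exact le_of_mul_le_mul_right h11 h10

/-- `1/D ≤ (C/r)²` -/
lemma Di_le (hR : 0 < R) (hr : R < r) : Di R r ≤ ((96 + 2 * R) / r) ^ 2 := by
  have hr0 : 0 < r := hR.trans hr
  have hD : r ^ 2 / (96 + 2 * R) ^ 2 ≤ DD R r := by
    rw [div_le_iff₀ (by positivity)]
    by_cases h2 : r ≤ 2 * R
    · have := DD_ge_one (R := R) (r := r)
      nlinarith [mul_nonneg (sub_nonneg.2 this) (sq_nonneg (96 + 2 * R))]
    · push Not at h2
      have h1 := th_ge hR hr.le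
      have h3 : r / 24 ≤ (r - R) ^ 3 / (3 * r ^ 2) := by
        rw [div_le_div_iff₀ (by norm_num) (by positivity)]
        have h4 : r / 2 ≤ r - R := by linarith
        have h5 : (r / 2) ^ 3 ≤ (r - R) ^ 3 := by gcongr
        nlinarith
      have h6 := one_add_th_le (R := R) (r := r)
      have h7 : r / 48 - 1 / 4 ≤ SS R r := by linarith
      have h8 : r ^ 2 / 96 ^ 2 ≤ DD R r := by
        unfold DD
        by_cases h9 : r ≤ 48
        · nlinarith [sq_nonneg (SS R r)]
        · push Not at h9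
          have h10 : r / 96 ≤ SS R r := by linarith
          have h11 : (r / 96) ^ 2 ≤ SS R r ^ 2 := by gcongr
          nlinarith
      have h12 : r ^ 2 ≤ DD R r * 96 ^ 2 := by
        rw [div_le_iff₀ (by norm_num)] at h8
        exact h8
      have h13 := DD_pos (R := R) (r := r)
      calc r ^ 2 ≤ DD R r * 96 ^ 2 := h12
        _ ≤ DD R r * (96 + 2 * R) ^ 2 := by gcongr; linarith
  have h1 := Di_mul (R := R) (r := r)
  have h2 := Di_pos (R := R) (r := r)
  have h3 : Di R r * (r ^ 2 / (96 + 2 * R) ^ 2) ≤ 1 := by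
    calc Di R r * (r ^ 2 / (96 + 2 * R) ^ 2) ≤ Di R r * DD R r := by gcongr
      _ = 1 := h1
  rw [div_pow, le_div_iff₀ (by positivity)]
  rw [← mul_div_assoc, div_le_iff₀ (by positivity)] at h3
  linarith

lemma QQ_le (hR : 0 < R) (hr : R < r) : |QQ R r| ≤ (96 + 2 * R) / r := by
  have hr0 : 0 < r := hR.trans hr
  apply abs_le_of_sq_le_sq _ (by positivity)
  rw [QQ_sq]
  have := Di_le hR hr
  nlinarith [sq_nonneg (Di R r)]

end

end

end NLSn
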