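import Pool.Agent.Lib52.NLSn.Prof1

/-!
# The profile and the symbol classes
-/

namespace NLSn

open MeasureTheory Filter Topology Set

noncomputable section

/-- amplitude factor `r^{-(n-1)/2}` -/
def am (n : ℕ) (r : ℝ) : ℝ := (1 / √r) ^ (n - 1)

/-- the one-dimensional profile -/
def ww (m : ℕ) (R r : ℝ) : ℝ := cc R r * om R r * Di R r ^ m
/-- its derivative -/
def ww1 (m : ℕ) (R r : ℝ) : ℝ :=
  (-(ss R r * et R r) - R * ri r ^ 2 * (cc R r * om R r ^ 2) -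
    2 * m * QQ R r * (et R r * cc R r ^ 3)) * Di R r ^ m
/-- the one-dimensional potential -/
def BB (m : ℕ) (R r : ℝ) : ℝ :=
  1 - et R r ^ 4 + 2 * R * ri r ^ 3 * om R r + 2 * R ^ 2 * ri r ^ 4 * om R r ^ 2 +
    8 * m * et R r ^ 4 * (ss R r * cc R r) * QQ R r +
    et R r ^ 4 * cc R r ^ 4 * (-(2 * m) * Di R r + 4 * m * (m + 1) * QQ R r ^ 2)
/-- the potential in dimension `n` -/
def BN (n m : ℕ) (R r : ℝ) : ℝ :=
  BB m R r - ((n - 1 : ℕ) : ℝ) * (((n - 1 : ℕ) : ℝ) - 2) / 4 * ri r ^ 2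
/-- the radial profile -/
def vv (n m : ℕ) (R r : ℝ) : ℝ := am n r * ww m R r
/-- its derivative -/
def vv1 (n m : ℕ) (R r : ℝ) : ℝ :=
  am n r * (-(((n - 1 : ℕ) : ℝ) / 2) * ri r * ww m R r + ww1 m R r)

variable {R r : ℝ}

lemma hasDerivAt_am (n : ℕ) (hr : 0 < r) :
    HasDerivAt (am n) (-(((n - 1 : ℕ) : ℝ) / 2) * ri r * am n r) r := by
  have h1 : HasDerivAt (fun x : ℝ => 1 / √x) (-(1 / 2) * ri r * (1 / √r)) r := by
    have h := (Real.hasDerivAt_sqrt hr.ne').inv (Real.sqrt_pos.2 hr).ne'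
    have e : (fun x : ℝ => 1 / √x) = fun x => (√x)⁻¹ := by funext x; rw [one_div]
    rw [e]
    refine HasDerivAt.congr_deriv h ?_
    have h2 := Real.sq_sqrt hr.le
    have h3 := (Real.sqrt_pos.2 hr).ne'
    unfold ri
    rw [← h2]
    field_simp
    rw [Real.sqrt_sq (Real.sqrt_nonneg r)]
  have h2 := h1.fun_pow (n - 1)
  unfold am
  refine HasDerivAt.congr_deriv h2 ?_
  rcases h : n - 1 with _ | k
  · simp
  · simp only [Nat.add_sub_cancel]
    push_cast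
    ring

lemma hasDerivAt_ww (hR : 0 < R) (hr : R < r) (m : ℕ) :
    HasDerivAt (ww m R) (ww1 m R r) r := by
  have hr0 : 0 < r := hR.trans hr
  have h := ((hasDerivAt_cc hR hr0).mul (hasDerivAt_om hR hr)).mul (hasDerivAt_Dipow hR hr0 m)
  refine HasDerivAt.congr_deriv h ?_
  have ho := om_mul hR hr
  simp only [Pi.mul_apply]
  unfold ww1
  linear_combination (-(ss R r * et R r * Di R r ^ m) -
    2 * m * QQ R r * et R r * cc R r ^ 3 * Di R r ^ m) * ho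

lemma hasDerivAt_ww1 (hR : 0 < R) (hr : R < r) (m : ℕ) :
    HasDerivAt (ww1 m R) ((BB m R r - 1) * ww m R r) r := by
  have hr0 : 0 < r := hR.trans hr
  have hri := hasDerivAt_ri hr0.ne'
  have het := hasDerivAt_et (R := R) hr0.ne'
  have hcc := hasDerivAt_cc hR hr0
  have hss := hasDerivAt_ss hR hr0
  have hom := hasDerivAt_om hR hr
  have hQQ := hasDerivAt_QQ hR hr0
  have h1 := (hss.mul het).neg
  have h2 := ((hri.pow 2).const_mul R).mul (hcc.mul (hom.pow 2))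
  have h3 := (hQQ.const_mul (2 * (m : ℝ))).mul (het.mul (hcc.pow 3))
  have h := ((h1.sub h2).sub h3).mul (hasDerivAt_Dipow hR hr0 m)
  refine HasDerivAt.congr_deriv h ?_
  simp only [Pi.pow_apply, Pi.mul_apply, Pi.sub_apply, Pi.neg_apply, Nat.reduceSub, pow_one,
    Nat.cast_ofNat]
  have het0 := (et_pos hR hr).ne'
  unfold ww BB
  simp only [om]
  field_simp
  ring

lemma hasDerivAt_vv (hR : 0 < R) (hr : R < r) (n m : ℕ) :
    HasDerivAt (vv n m R) (vv1 n m R r) r := by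
  have hr0 : 0 < r := hR.trans hr
  have h := (hasDerivAt_am n hr0).mul (hasDerivAt_ww hR hr m)
  refine HasDerivAt.congr_deriv h ?_
  unfold vv1
  ring

lemma hasDerivAt_vv1 (hR : 0 < R) (hr : R < r) (n m : ℕ) :
    HasDerivAt (vv1 n m R) ((BN n m R r - 1) * vv n m R r -
      ((n - 1 : ℕ) : ℝ) * ri r * vv1 n m R r) r := by
  have hr0 : 0 < r := hR.trans hr
  have hri := hasDerivAt_ri hr0.ne'
  have h := (hasDerivAt_am n hr0).mul
    (((hri.const_mul (-(((n - 1 : ℕ) : ℝ) / 2))).mul (hasDerivAt_ww hR hr m)).add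
      (hasDerivAt_ww1 hR hr m))
  refine HasDerivAt.congr_deriv h ?_
  simp only [Pi.mul_apply, Pi.add_apply]
  unfold vv1 vv BN
  ring

/-! ### symbol classes -/

/-- algebra generated by the building blocks -/
inductive Alg (R : ℝ) : (ℝ → ℝ) → Prop
  | iconst (a : ℝ) : Alg R (fun _ => a)
  | iri : Alg R ri
  | icc : Alg R (cc R)
  | iss : Alg R (ss R)
  | iDi : Alg R (Di R)
  | iQQ : Alg R (QQ R)
  | iom : Alg R (om R)
  | add {f g : ℝ → ℝ} : Alg R f → Alg R g → Alg R (fun x => f x + g x)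
  | mul {f g : ℝ → ℝ} : Alg R f → Alg R g → Alg R (fun x => f x * g x)

/-- ideal of decaying functions -/
inductive Dec (R : ℝ) : (ℝ → ℝ) → Prop
  | jri : Dec R ri
  | jDi : Dec R (Di R)
  | jQQ : Dec R (QQ R)
  | add {f g : ℝ → ℝ} : Dec R f → Dec R g → Dec R (fun x => f x + g x)
  | mul {f g : ℝ → ℝ} : Alg R f → Dec R g → Dec R (fun x => f x * g x)

lemma Alg.congr {f g : ℝ → ℝ} (hf : Alg R f) (h : ∀ x, g x = f x) : Alg R g := by
  have : g = f := funext h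
  rwa [this]

lemma Dec.congr {f g : ℝ → ℝ} (hf : Dec R f) (h : ∀ x, g x = f x) : Dec R g := by
  have : g = f := funext h
  rwa [this]

lemma Dec.alg {f : ℝ → ℝ} (h : Dec R f) : Alg R f := by
  induction h with
  | jri => exact Alg.iri
  | jDi => exact Alg.iDi
  | jQQ => exact Alg.iQQ
  | add _ _ h1 h2 => exact h1.add h2
  | mul h1 _ h2 => exact h1.mul h2

lemma Alg.iet : Alg R (et R) :=
  ((Alg.iconst 1).add ((Alg.iconst (-R)).mul Alg.iri)).congr (fun x => by unfold et; ring)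

lemma Alg.pow {f : ℝ → ℝ} (h : Alg R f) : ∀ n : ℕ, Alg R (fun x => f x ^ n)
  | 0 => (Alg.iconst 1).congr (fun x => by simp)
  | n + 1 => ((Alg.pow h n).mul h).congr (fun x => by ring)

lemma Alg.neg {f : ℝ → ℝ} (h : Alg R f) : Alg R (fun x => -f x) :=
  ((Alg.iconst (-1)).mul h).congr (fun x => by ring)

lemma Alg.sub {f g : ℝ → ℝ} (hf : Alg R f) (hg : Alg R g) : Alg R (fun x => f x - g x) :=
  (hf.add hg.neg).congr (fun x => by ring)

lemma Dec.neg {f : ℝ → ℝ} (h : Dec R f) : Dec R (fun x => -f x) :=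
  (Dec.mul (Alg.iconst (-1)) h).congr (fun x => by ring)

lemma Dec.sub {f g : ℝ → ℝ} (hf : Dec R f) (hg : Dec R g) : Dec R (fun x => f x - g x) :=
  (hf.add hg.neg).congr (fun x => by ring)

lemma Alg.deriv (hR : 0 < R) {f : ℝ → ℝ} (h : Alg R f) :
    ∃ f' : ℝ → ℝ, Alg R f' ∧ ∀ x, R < x → HasDerivAt f (f' x) x := by
  induction h with
  | iconst a => exact ⟨fun _ => 0, Alg.iconst 0, fun x _ => hasDerivAt_const x a⟩
  | iri => exact ⟨_, (Alg.iri.pow 2).neg, fun x hx => hasDerivAt_ri (hR.trans hx).ne'⟩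
  | icc => exact ⟨_, (Alg.iss.mul (Alg.iet.pow 2)).neg, fun x hx => hasDerivAt_cc hR (hR.trans hx)⟩
  | iss => exact ⟨_, Alg.icc.mul (Alg.iet.pow 2), fun x hx => hasDerivAt_ss hR (hR.trans hx)⟩
  | iDi =>
    exact ⟨_, ((((Alg.iconst 2).mul Alg.iQQ).mul ((Alg.iet.pow 2).mul (Alg.icc.pow 2))).mul
      Alg.iDi).neg, fun x hx => hasDerivAt_Di hR (hR.trans hx)⟩
  | iQQ =>
    exact ⟨_, (((Alg.iet.pow 2).mul (Alg.icc.pow 2)).mul Alg.iDi).sub
      (((Alg.iconst 2).mul (Alg.iQQ.pow 2)).mul ((Alg.iet.pow 2).mul (Alg.icc.pow 2))),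
      fun x hx => hasDerivAt_QQ hR (hR.trans hx)⟩
  | iom =>
    exact ⟨_, (((Alg.iconst R).mul (Alg.iri.pow 2)).mul (Alg.iom.pow 2)).neg,
      fun x hx => hasDerivAt_om hR hx⟩
  | add _ _ h1 h2 =>
    obtain ⟨f', hf, hf'⟩ := h1
    obtain ⟨g', hg, hg'⟩ := h2
    exact ⟨_, hf.add hg, fun x hx => (hf' x hx).add (hg' x hx)⟩
  | mul a1 a2 h1 h2 =>
    obtain ⟨f', hf, hf'⟩ := h1
    obtain ⟨g', hg, hg'⟩ := h2
    exact ⟨_, (hf.mul a2).add (a1.mul hg), fun x hx => (hf' x hx).mul (hg' x hx)⟩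

lemma Dec.deriv (hR : 0 < R) {f : ℝ → ℝ} (h : Dec R f) :
    ∃ f' : ℝ → ℝ, Dec R f' ∧ ∀ x, R < x → HasDerivAt f (f' x) x := by
  induction h with
  | jri =>
    exact ⟨_, (Dec.mul Alg.iri.neg Dec.jri).congr (g := fun x => -(ri x ^ 2)) (fun x => by ring),
      fun x hx => hasDerivAt_ri (hR.trans hx).ne'⟩
  | jDi =>
    exact ⟨_, (Dec.mul (((Alg.iconst 2).mul Alg.iQQ).mul ((Alg.iet.pow 2).mul
      (Alg.icc.pow 2))).neg Dec.jDi).congr
        (g := fun x => -(2 * QQ R x * (et R x ^ 2 * cc R x ^ 2) * Di R x)) (fun x => by ring),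
      fun x hx => hasDerivAt_Di hR (hR.trans hx)⟩
  | jQQ =>
    exact ⟨_, (Dec.mul ((Alg.iet.pow 2).mul (Alg.icc.pow 2)) Dec.jDi).sub
      ((Dec.mul (((Alg.iconst 2).mul Alg.iQQ).mul ((Alg.iet.pow 2).mul (Alg.icc.pow 2)))
        Dec.jQQ).congr (g := fun x => 2 * QQ R x ^ 2 * (et R x ^ 2 * cc R x ^ 2))
          (fun x => by ring)),
      fun x hx => hasDerivAt_QQ hR (hR.trans hx)⟩
  | add _ _ h1 h2 =>
    obtain ⟨f', hf, hf'⟩ := h1
    obtain ⟨g', hg, hg'⟩ := h2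
    exact ⟨_, hf.add hg, fun x hx => (hf' x hx).add (hg' x hx)⟩
  | mul a1 a2 h2 =>
    obtain ⟨f', hf, hf'⟩ := a1.deriv hR
    obtain ⟨g', hg, hg'⟩ := h2
    exact ⟨_, (Dec.mul hf a2).add (Dec.mul a1 hg), fun x hx => (hf' x hx).mul (hg' x hx)⟩

lemma om_bdd (hR : 0 < R) {X : ℝ} (hX : R < X) : ∀ r, X ≤ r → |om R r| ≤ 1 / et R X := by
  intro r hr
  have h1 := et_pos hR hX
  have h2 := et_pos hR (lt_of_lt_of_le hX hr)
  have h3 : et R X ≤ et R r := by
    unfold et ri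
    have hX0 : 0 < X := hR.trans hX
    have : 1 / r ≤ 1 / X := one_div_le_one_div_of_le hX0 hr
    nlinarith
  unfold om
  rw [abs_of_pos (by positivity)]
  exact one_div_le_one_div_of_le h1 h3

lemma Alg.bdd (hR : 0 < R) {X : ℝ} (hX : R < X) {f : ℝ → ℝ} (h : Alg R f) :
    ∃ K, 0 ≤ K ∧ ∀ r, X ≤ r → |f r| ≤ K := by
  have hX0 : 0 < X := hR.trans hX
  induction h with
  | iconst a => exact ⟨|a|, abs_nonneg a, fun x _ => le_rfl⟩
  | iri => exact ⟨1 / X, by positivity, fun x hx => by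
      unfold ri
      rw [abs_of_pos (by have := lt_of_lt_of_le hX0 hx; positivity)]
      exact one_div_le_one_div_of_le hX0 hx⟩
  | icc => exact ⟨1, by norm_num, fun x _ => cc_abs⟩
  | iss => exact ⟨1, by norm_num, fun x _ => ss_abs⟩
  | iDi => exact ⟨1, by norm_num, fun x _ => by
      rw [abs_of_pos Di_pos]; exact Di_le_one⟩
  | iQQ => exact ⟨1 / 2, by norm_num, fun x _ => QQ_abs⟩
  | iom => exact ⟨1 / et R X, by have := et_pos hR hX; positivity, om_bdd hR hX⟩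
  | add _ _ h1 h2 =>
    obtain ⟨K, hK, hf⟩ := h1
    obtain ⟨L, hL, hg⟩ := h2
    exact ⟨K + L, by positivity, fun x hx => (abs_add_le _ _).trans (add_le_add (hf x hx) (hg x hx))⟩
  | mul _ _ h1 h2 =>
    obtain ⟨K, hK, hf⟩ := h1
    obtain ⟨L, hL, hg⟩ := h2
    exact ⟨K * L, by positivity, fun x hx => by
      rw [abs_mul]; exact mul_le_mul (hf x hx) (hg x hx) (abs_nonneg _) hK⟩

lemma OX_alg (hR : 0 < R) {X : ℝ} (hX : R < X) {f : ℝ → ℝ} (h : Alg R f) : OX X 0 f := by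
  obtain ⟨K, hK, hf⟩ := h.bdd hR hX
  exact ⟨K, hK, fun x hx => by simpa using hf x hx⟩

lemma OX_ri {X : ℝ} (hX : 0 < X) : OX X 1 ri :=
  ⟨1, zero_le_one, fun x hx => by
    unfold ri
    rw [abs_of_pos (by have := lt_of_lt_of_le hX hx; positivity), pow_one]⟩

lemma OX_Di (hR : 0 < R) {X : ℝ} (hX : R < X) : OX X 2 (Di R) :=
  ⟨(96 + 2 * R) ^ 2, by positivity, fun x hx => by
    rw [abs_of_pos Di_pos, ← div_pow]; exact Di_le hR (lt_of_lt_of_le hX hx)⟩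

lemma OX_QQ (hR : 0 < R) {X : ℝ} (hX : R < X) : OX X 1 (QQ R) :=
  ⟨96 + 2 * R, by positivity, fun x hx => by
    rw [pow_one]; exact QQ_le hR (lt_of_lt_of_le hX hx)⟩

lemma Dec.OX (hR : 0 < R) {X : ℝ} (hX : R < X) {f : ℝ → ℝ} (h : Dec R f) : OX X 1 f := by
  have hX0 : 0 < X := hR.trans hX
  induction h with
  | jri => exact OX_ri hX0
  | jDi => exact OX.weak hX0 (k := 1) (l := 1) (OX_Di hR hX)
  | jQQ => exact OX_QQ hR hX
  | add _ _ h1 h2 => exact h1.add h2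
  | mul h1 _ h2 =>
    have := OX.mul hX0 (OX_alg hR hX h1) h2
    simpa using this

lemma Alg.contDiffOn_nat (hR : 0 < R) : ∀ (n : ℕ) {f : ℝ → ℝ}, Alg R f →
    ContDiffOn ℝ n f (Ioi R)
  | 0, f, h => by
    rw [Nat.cast_zero, contDiffOn_zero]
    obtain ⟨f', _, hf'⟩ := h.deriv hR
    exact fun x hx => (hf' x hx).continuousAt.continuousWithinAt
  | n + 1, f, h => by
    obtain ⟨f', hf, hf'⟩ := h.deriv hR
    rw [Nat.cast_add, Nat.cast_one, contDiffOn_succ_iff_deriv_of_isOpen isOpen_Ioi]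
    refine ⟨fun x hx => (hf' x hx).differentiableAt.differentiableWithinAt, by simp, ?_⟩
    exact (Alg.contDiffOn_nat hR n hf).congr (fun x hx => (hf' x hx).deriv)

lemma Alg.contDiffAt (hR : 0 < R) {f : ℝ → ℝ} (h : Alg R f) (hr : R < r) :
    ContDiffAt ℝ (⊤ : ℕ∞) f r := by
  have h1 : ContDiffOn ℝ (⊤ : ℕ∞) f (Ioi R) := by
    rw [contDiffOn_infty]; exact fun n => h.contDiffOn_nat hR n
  exact h1.contDiffAt (Ioi_mem_nhds hr)

/-- the iterated derivatives of a function which agrees with a decaying symbol -/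
lemma Dec.iter (hR : 0 < R) {X : ℝ} (hX : R ≤ X) {g f : ℝ → ℝ} (h : Dec R f)
    (hg : ∀ x, X < x → g x = f x) : ∀ k : ℕ, ∃ fk, Dec R fk ∧
    ∀ x, X < x → iteratedDeriv k g x = fk x
  | 0 => ⟨f, h, fun x hx => by rw [iteratedDeriv_zero]; exact hg x hx⟩
  | k + 1 => by
    obtain ⟨fk, h1, h2⟩ := Dec.iter hR hX h hg k
    obtain ⟨f', h3, h4⟩ := h1.deriv hR
    refine ⟨f', h3, fun x hx => ?_⟩
    rw [iteratedDeriv_succ]
    have : iteratedDeriv k g =ᶠ[𝓝 x] fk := by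
      filter_upwards [Ioi_mem_nhds hx] with z hz
      exact h2 z hz
    rw [this.deriv_eq]
    exact (h4 x (lt_of_le_of_lt hX hx)).deriv

end

end NLSn
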