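import Pool.Agent.Lib52.NLSn.Prof2

/-!
# Bounds in the gluing region and positivity of the potential
-/

namespace NLSn

open MeasureTheory Filter Topology Set

noncomputable section

/-- the standing assumptions on the parameters; `M` bounds the derivatives of the cutoff -/
structure Par (n m : ℕ) (R L M : ℝ) : Prop where
  hn : 1 ≤ n
  hM : 1 ≤ M
  hM1 : ∀ x, |deriv Real.smoothTransition x| ≤ M
  hM2 : ∀ x, |deriv (deriv Real.smoothTransition) x| ≤ M
  hL : 8 * (12 + 4 * (n : ℝ)) * M ≤ L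
  hR1 : 2 * n * L ≤ R
  hR2 : 2 * L * (2 + m) * (L + 2) ^ 2 ≤ R ^ 2
  hR3 : (L + 2) ^ 3 ≤ R ^ 2
  hR4 : 8 * (1 + 4 * (m : ℝ)) * (L + 2) ^ 4 ≤ R ^ 4
  hR5 : 54 * (m : ℝ) + (n : ℝ) ^ 2 + 1 ≤ R

variable {n m : ℕ} {R L M r : ℝ}

lemma Par.nR (P : Par n m R L M) : (1 : ℝ) ≤ n := by exact_mod_cast P.hn

lemma Par.L0 (P : Par n m R L M) : 96 ≤ L := by
  have h1 := P.hL
  have h2 := P.hM
  have h3 := P.nR
  nlinarith

lemma Par.R0 (P : Par n m R L M) : 1 ≤ R := by
  have h1 := P.hR5
  have h3 : (0 : ℝ) ≤ m := Nat.cast_nonneg m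
  nlinarith [sq_nonneg (n : ℝ)]

lemma Par.Rpos (P : Par n m R L M) : 0 < R := lt_of_lt_of_le one_pos P.R0

lemma Par.kk (P : Par n m R L M) : ((n - 1 : ℕ) : ℝ) = (n : ℝ) - 1 := by
  rw [Nat.cast_sub P.hn, Nat.cast_one]

/-- positivity on `(R, ∞)` -/
lemma Par.BN_ge (P : Par n m R L M) (hr : R < r) : 1 / r ≤ BN n m R r := by
  have hR := P.Rpos
  have hr0 : 0 < r := hR.trans hr
  have hm : (0 : ℝ) ≤ m := Nat.cast_nonneg m
  have h1 := et4_Q hR hr
  have h2 := et4_Di hR hr
  have h3 := et_pos hR hr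
  have h4 := et_le hR hr.le
  have hom : 0 < om R r := by unfold om; positivity
  have hri : 0 < ri r := by unfold ri; positivity
  have hnn := P.nR
  have e1 : 8 * m * et R r ^ 4 * (ss R r * cc R r) * QQ R r ≥ -(36 * m / r) := by
    have a1 : |8 * m * et R r ^ 4 * (ss R r * cc R r) * QQ R r| ≤ 36 * m / r := by
      have a2 : |ss R r * cc R r| ≤ 1 / 2 := abs_le.2 ⟨sc_ge, sc_le⟩
      have e2 : |8 * m * et R r ^ 4 * (ss R r * cc R r) * QQ R r| =
          8 * m * |ss R r * cc R r| * (et R r ^ 4 * |QQ R r|) := by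
        rw [abs_mul, abs_mul, abs_mul, abs_mul, abs_of_nonneg hm, abs_of_pos (by positivity :
          (0 : ℝ) < et R r ^ 4), abs_of_pos (by norm_num : (0 : ℝ) < 8)]
        ring
      rw [e2]
      calc 8 * m * |ss R r * cc R r| * (et R r ^ 4 * |QQ R r|)
          ≤ 8 * m * (1 / 2) * (9 / r) := by
            have := abs_nonneg (QQ R r)
            gcongr
        _ = 36 * m / r := by ring
    exact (abs_le.1 a1).1
  have e2 : et R r ^ 4 * cc R r ^ 4 * (-(2 * m) * Di R r + 4 * m * (m + 1) * QQ R r ^ 2) ≥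
      -(18 * m / r) := by
    have c4 : cc R r ^ 4 ≤ 1 := by
      have := cs_sq (R := R) (r := r)
      have h5 : cc R r ^ 2 ≤ 1 := by nlinarith [sq_nonneg (ss R r)]
      nlinarith [sq_nonneg (cc R r)]
    have c40 : 0 ≤ cc R r ^ 4 := by positivity
    have a1 : 0 ≤ et R r ^ 4 * cc R r ^ 4 * (4 * m * (m + 1) * QQ R r ^ 2) := by positivity
    have a2 : et R r ^ 4 * Di R r * (2 * m * cc R r ^ 4) ≤ 9 / r * (2 * m * 1) := by
      gcongr
    have a3 : 9 / r * (2 * m * 1) = 18 * m / r := by ring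
    nlinarith
  have e3 : 0 ≤ 2 * R * ri r ^ 3 * om R r + 2 * R ^ 2 * ri r ^ 4 * om R r ^ 2 := by positivity
  have e4 : R / r ≤ 1 - et R r ^ 4 := by
    have a1 : et R r ^ 4 ≤ et R r := by
      have := pow_le_pow_of_le_one h3.le h4 (by norm_num : 1 ≤ 4)
      simpa using this
    have a2 : et R r = 1 - R / r := by unfold et ri; ring
    linarith
  have e5 : ((n - 1 : ℕ) : ℝ) * (((n - 1 : ℕ) : ℝ) - 2) / 4 * ri r ^ 2 ≤ (n : ℝ) ^ 2 / r := by
    rw [P.kk]
    have a1 : ri r ^ 2 ≤ 1 / r := by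
      unfold ri
      rw [div_pow, one_pow]
      apply one_div_le_one_div_of_le hr0
      have := P.R0
      nlinarith
    have a2 : ((n : ℝ) - 1) * ((n : ℝ) - 1 - 2) / 4 ≤ (n : ℝ) ^ 2 := by nlinarith
    calc ((n : ℝ) - 1) * ((n : ℝ) - 1 - 2) / 4 * ri r ^ 2 ≤ (n : ℝ) ^ 2 * ri r ^ 2 := by gcongr
      _ ≤ (n : ℝ) ^ 2 * (1 / r) := by gcongr
      _ = (n : ℝ) ^ 2 / r := by ring
  have e6 : 1 / r ≤ R / r - 36 * m / r - 18 * m / r - (n : ℝ) ^ 2 / r := by
    rw [← sub_div, ← sub_div, ← sub_div]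
    apply div_le_div_of_nonneg_right _ hr0.le
    have := P.hR5
    linarith
  unfold BN BB
  linarith

/-- the gluing region -/
lemma th_le (hR : 0 < R) (hr : R ≤ r) : th R r ≤ (r - R) ^ 3 / R ^ 2 := by
  have hd : ∀ x, R ≤ x → HasDerivAt (fun x => (x - R) ^ 3 / R ^ 2 - th R x)
      (3 * (x - R) ^ 2 / R ^ 2 - et R x ^ 2) x := by
    intro x hx
    have h1 : HasDerivAt (fun x : ℝ => (x - R) ^ 3) (3 * (x - R) ^ 2) x := by
      have := ((hasDerivAt_id' x).sub_const R).fun_pow 3
      refine HasDerivAt.congr_deriv this ?_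
      simp
    exact (h1.div_const (R ^ 2)).sub (hasDerivAt_th hR (lt_of_lt_of_le hR hx))
  have := mono_ge hd (a := R) (fun x hx => by
    have hx0 : 0 < x := lt_of_lt_of_le hR hx
    rw [et_eq hx0, div_pow]
    have h1 : (x - R) ^ 2 / x ^ 2 ≤ (x - R) ^ 2 / R ^ 2 := by gcongr
    have h2 : 3 * (x - R) ^ 2 / R ^ 2 = 3 * ((x - R) ^ 2 / R ^ 2) := by ring
    have h3 : 0 ≤ (x - R) ^ 2 / R ^ 2 := by positivity
    linarith) le_rfl hr
  simp only [th_R hR, sub_self] at this
  norm_num at this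
  linarith

section region
variable (P : Par n m R L M) (h1 : R + L ≤ r) (h2 : r ≤ R + L + 2)
include P h1 h2

lemma Par.rR : R < r := by have := P.L0; linarith

lemma Par.et_small : et R r ≤ (L + 2) / R := by
  have hR := P.Rpos
  have hr : R < r := P.rR h1 h2
  rw [et_eq (hR.trans hr)]
  have h3 : 0 ≤ r - R := by linarith
  calc (r - R) / r ≤ (L + 2) / r := by
        have : 0 < r := hR.trans hr
        gcongr; linarith
    _ ≤ (L + 2) / R := by
        have := P.L0
        gcongr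

lemma Par.th_small : th R r ≤ 1 := by
  have hR := P.Rpos
  have hr : R < r := P.rR h1 h2
  refine (th_le hR hr.le).trans ?_
  rw [div_le_one (by positivity)]
  refine le_trans ?_ P.hR3
  have h3 : 0 ≤ r - R := by linarith
  have h4 : r - R ≤ L + 2 := by linarith
  gcongr

lemma Par.cc_ge : 1 / 2 ≤ cc R r := by
  have hR := P.Rpos
  have hr : R < r := P.rR h1 h2
  have a := P.th_small h1 h2
  have b := th_nonneg hR hr.le
  have c := Real.one_sub_sq_div_two_le_cos (x := th R r)
  unfold cc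
  nlinarith

lemma Par.et_sq : (2 + m) * et R r ^ 2 ≤ 1 / (2 * L) := by
  have hR := P.Rpos
  have hr : R < r := P.rR h1 h2
  have a := P.et_small h1 h2
  have b := (et_pos hR hr).le
  have hL := P.L0
  have hm : (0 : ℝ) ≤ m := Nat.cast_nonneg m
  have c : et R r ^ 2 ≤ ((L + 2) / R) ^ 2 := by gcongr
  calc (2 + m) * et R r ^ 2 ≤ (2 + m) * ((L + 2) / R) ^ 2 := by gcongr
    _ ≤ 1 / (2 * L) := by
        rw [le_div_iff₀ (by positivity), div_pow, mul_div_assoc', div_mul_eq_mul_div,
          div_le_one (by positivity)]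
        have := P.hR2
        linarith

lemma Par.et_four : (1 + 4 * (m : ℝ)) * et R r ^ 4 ≤ 1 / 8 := by
  have hR := P.Rpos
  have hr : R < r := P.rR h1 h2
  have a := P.et_small h1 h2
  have b := (et_pos hR hr).le
  have hm : (0 : ℝ) ≤ m := Nat.cast_nonneg m
  have c : et R r ^ 4 ≤ ((L + 2) / R) ^ 4 := by gcongr
  calc (1 + 4 * (m : ℝ)) * et R r ^ 4 ≤ (1 + 4 * (m : ℝ)) * ((L + 2) / R) ^ 4 := by gcongr
    _ ≤ 1 / 8 := by
        rw [div_pow, mul_div_assoc', div_le_iff₀ (by positivity)]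
        have := P.hR4
        linarith

lemma Par.vv_pos : 0 < vv n m R r := by
  have hR := P.Rpos
  have hr : R < r := P.rR h1 h2
  have hr0 : 0 < r := hR.trans hr
  have a := P.cc_ge h1 h2
  have b := et_pos hR hr
  have c := Di_pos (R := R) (r := r)
  have d : 0 < √r := Real.sqrt_pos.2 hr0
  unfold vv ww am om
  positivity

lemma Par.vv1_abs : |vv1 n m R r| ≤ 2 / L * vv n m R r := by
  have hR := P.Rpos
  have hr : R < r := P.rR h1 h2
  have hr0 : 0 < r := hR.trans hr
  have hL := P.L0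
  have hm : (0 : ℝ) ≤ m := Nat.cast_nonneg m
  have a := P.cc_ge h1 h2
  have a1 : cc R r ≤ 1 := (abs_le.1 cc_abs).2
  have b := et_pos hR hr
  have c := Di_pos (R := R) (r := r)
  have d : 0 < √r := Real.sqrt_pos.2 hr0
  have ham : 0 < am n r := by unfold am; positivity
  have hom : 0 < om R r := by unfold om; positivity
  have ho := om_mul hR hr
  have hcc : 0 < cc R r := by linarith
  have hDm : 0 < Di R r ^ m := by positivity
  have es := P.et_sq h1 h2
  -- the three terms
  have t1 : |ss R r * et R r| ≤ 2 * et R r ^ 2 * (cc R r * om R r) := by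
    rw [abs_mul, abs_of_pos b]
    calc |ss R r| * et R r ≤ 1 * et R r := by
          have := ss_abs (R := R) (r := r)
          gcongr
      _ = et R r * (et R r * om R r) := by rw [mul_comm (et R r) (om R r), ho]; ring
      _ ≤ et R r * (et R r * om R r) * (2 * cc R r) := by
          have : 0 < et R r * (et R r * om R r) := by positivity
          nlinarith
      _ = 2 * et R r ^ 2 * (cc R r * om R r) := by ring
  have t2 : |R * ri r ^ 2 * (cc R r * om R r ^ 2)| ≤ 1 / L * (cc R r * om R r) := by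
    have hri : 0 < ri r := by unfold ri; positivity
    rw [abs_of_pos (by positivity)]
    have h3 : R * ri r ^ 2 * om R r ≤ 1 / L := by
      unfold om ri
      rw [et_eq hr0]
      have h4 : L ≤ r - R := by linarith
      have h5 : R * (1 / r) ^ 2 * (1 / ((r - R) / r)) = (R / r) * (1 / (r - R)) := by
        have : r - R ≠ 0 := by linarith
        field_simp
      rw [h5]
      have h6 : R / r ≤ 1 := by rw [div_le_one hr0]; exact hr.le
      have h7 : 1 / (r - R) ≤ 1 / L := one_div_le_one_div_of_le (by linarith) h4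
      calc R / r * (1 / (r - R)) ≤ 1 * (1 / L) := by
            have : 0 < r - R := by linarith
            gcongr
        _ = 1 / L := one_mul _
    calc R * ri r ^ 2 * (cc R r * om R r ^ 2) = (R * ri r ^ 2 * om R r) * (cc R r * om R r) := by
          ring
      _ ≤ 1 / L * (cc R r * om R r) := by gcongr
  have t3 : |2 * m * QQ R r * (et R r * cc R r ^ 3)| ≤ m * et R r ^ 2 * (cc R r * om R r) := by
    have hq := QQ_abs (R := R) (r := r)
    rw [abs_mul, abs_mul, abs_of_nonneg (by positivity : (0 : ℝ) ≤ 2 * m),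
      abs_of_pos (by positivity : 0 < et R r * cc R r ^ 3)]
    calc 2 * m * |QQ R r| * (et R r * cc R r ^ 3) ≤ 2 * m * (1 / 2) * (et R r * cc R r ^ 3) := by
          gcongr
      _ = m * (et R r * cc R r ^ 3) := by ring
      _ ≤ m * (et R r * cc R r) := by
          have : cc R r ^ 3 ≤ cc R r := by
            have := pow_le_pow_of_le_one hcc.le a1 (by norm_num : 1 ≤ 3)
            simpa using this
          gcongr
      _ = m * et R r ^ 2 * (cc R r * om R r) := by
          have : et R r = et R r * (om R r * et R r) := by rw [ho, mul_one]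
          calc m * (et R r * cc R r) = m * ((et R r * (om R r * et R r)) * cc R r) := by
                rw [← this]
            _ = _ := by ring
  have t4 : |-(((n - 1 : ℕ) : ℝ) / 2) * ri r * ww m R r| ≤ 1 / (4 * L) * ww m R r := by
    have hw : 0 < ww m R r := by unfold ww; positivity
    have hk := P.kk
    have hnn := P.nR
    have hri : 0 < ri r := by unfold ri; positivity
    rw [abs_mul, abs_mul, abs_neg, abs_of_nonneg (by rw [hk]; linarith), abs_of_pos hri,
      abs_of_pos hw]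
    have h3 : ((n - 1 : ℕ) : ℝ) / 2 * ri r ≤ 1 / (4 * L) := by
      rw [hk]
      unfold ri
      have h5 := P.hR1
      rw [le_div_iff₀ (by positivity)]
      have h6 : ((n : ℝ) - 1) / 2 * (1 / r) * (4 * L) = (2 * ((n : ℝ) - 1) * L) / r := by
        field_simp; norm_num
      rw [h6, div_le_one hr0]
      nlinarith
    gcongr
  have hsum : |vv1 n m R r| ≤ am n r * (1 / (4 * L) * ww m R r +
      (2 * et R r ^ 2 * (cc R r * om R r) + 1 / L * (cc R r * om R r) +
        m * et R r ^ 2 * (cc R r * om R r)) * Di R r ^ m) := by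
    unfold vv1
    rw [abs_mul, abs_of_pos ham]
    refine mul_le_mul_of_nonneg_left ?_ ham.le
    refine (abs_add_le _ _).trans (add_le_add t4 ?_)
    unfold ww1
    rw [abs_mul, abs_of_pos hDm]
    refine mul_le_mul_of_nonneg_right ?_ hDm.le
    refine (abs_sub _ _).trans (add_le_add ((abs_sub _ _).trans (add_le_add ?_ t2)) t3)
    rw [abs_neg]
    exact t1
  refine hsum.trans ?_
  have e1 : am n r * (1 / (4 * L) * ww m R r +
      (2 * et R r ^ 2 * (cc R r * om R r) + 1 / L * (cc R r * om R r) +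
        m * et R r ^ 2 * (cc R r * om R r)) * Di R r ^ m) =
      (1 / (4 * L) + (2 + m) * et R r ^ 2 + 1 / L) * vv n m R r := by
    unfold vv ww; ring
  rw [e1]
  have hv := P.vv_pos h1 h2
  apply mul_le_mul_of_nonneg_right _ hv.le
  have e2 : 1 / (4 * L) + 1 / (2 * L) + 1 / L = 7 / 4 * (1 / L) := by field_simp; norm_num
  have e3 : 2 / L = 2 * (1 / L) := by ring
  have e4 : 0 < 1 / L := by positivity
  rw [e3]
  linarith

lemma Par.BN_region : 3 / 4 ≤ BN n m R r := by
  have hR := P.Rpos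
  have hR1 := P.R0
  have hr : R < r := P.rR h1 h2
  have hr0 : 0 < r := hR.trans hr
  have hm : (0 : ℝ) ≤ m := Nat.cast_nonneg m
  have h3 := et_pos hR hr
  have hom : 0 < om R r := by unfold om; positivity
  have hri : 0 < ri r := by unfold ri; positivity
  have h4 := P.et_four h1 h2
  have e1 : -(2 * m * et R r ^ 4) ≤ 8 * m * et R r ^ 4 * (ss R r * cc R r) * QQ R r := by
    have a1 : |8 * m * et R r ^ 4 * (ss R r * cc R r) * QQ R r| ≤ 2 * m * et R r ^ 4 := by
      have a2 : |ss R r * cc R r| ≤ 1 / 2 := abs_le.2 ⟨sc_ge, sc_le⟩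
      have a3 := QQ_abs (R := R) (r := r)
      have e2 : |8 * m * et R r ^ 4 * (ss R r * cc R r) * QQ R r| =
          8 * m * et R r ^ 4 * |ss R r * cc R r| * |QQ R r| := by
        rw [abs_mul, abs_mul, abs_of_nonneg (by positivity : (0 : ℝ) ≤ 8 * m * et R r ^ 4)]
      rw [e2]
      calc 8 * m * et R r ^ 4 * |ss R r * cc R r| * |QQ R r|
          ≤ 8 * m * et R r ^ 4 * (1 / 2) * (1 / 2) := by gcongr
        _ = 2 * m * et R r ^ 4 := by ring
    exact (abs_le.1 a1).1
  have e2 : -(2 * m * et R r ^ 4) ≤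
      et R r ^ 4 * cc R r ^ 4 * (-(2 * m) * Di R r + 4 * m * (m + 1) * QQ R r ^ 2) := by
    have c4 : cc R r ^ 4 ≤ 1 := by
      have := cs_sq (R := R) (r := r)
      have h5 : cc R r ^ 2 ≤ 1 := by nlinarith [sq_nonneg (ss R r)]
      nlinarith [sq_nonneg (cc R r)]
    have c40 : 0 ≤ cc R r ^ 4 := by positivity
    have a1 : 0 ≤ et R r ^ 4 * cc R r ^ 4 * (4 * m * (m + 1) * QQ R r ^ 2) := by positivity
    have hD1 := Di_le_one (R := R) (r := r)
    have hD0 := Di_pos (R := R) (r := r)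
    have a2 : et R r ^ 4 * (2 * m) * (cc R r ^ 4 * Di R r) ≤ et R r ^ 4 * (2 * m) * (1 * 1) := by
      gcongr
    nlinarith
  have e3 : 0 ≤ 2 * R * ri r ^ 3 * om R r + 2 * R ^ 2 * ri r ^ 4 * om R r ^ 2 := by positivity
  have e5 : ((n - 1 : ℕ) : ℝ) * (((n - 1 : ℕ) : ℝ) - 2) / 4 * ri r ^ 2 ≤ 1 / 8 := by
    rw [P.kk]
    have hnn := P.nR
    have h5 := P.hR1
    have h6 := P.L0
    have h7 : (n : ℝ) ≤ R := by nlinarith
    have h9 : 96 * (n : ℝ) ≤ r := by nlinarith
    have a1 : ri r * n ≤ 1 / 96 := by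
      unfold ri
      rw [one_div, inv_mul_le_iff₀ hr0]
      linarith
    have a2 : ((n : ℝ) - 1) * ((n : ℝ) - 1 - 2) / 4 ≤ (n : ℝ) ^ 2 := by nlinarith
    calc ((n : ℝ) - 1) * ((n : ℝ) - 1 - 2) / 4 * ri r ^ 2 ≤ (n : ℝ) ^ 2 * ri r ^ 2 := by gcongr
      _ = (ri r * n) ^ 2 := by ring
      _ ≤ (1 / 96) ^ 2 := by gcongr
      _ ≤ 1 / 8 := by norm_num
  unfold BN BB
  nlinarith

end region

end

end NLSn
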