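import Pool.Agent.Lib52.NLSn.Prof3

/-!
# The glued profile and the potential
-/

namespace NLSn

open MeasureTheory Filter Topology Set

noncomputable section

/-- cutoff -/
def chi (R L r : ℝ) : ℝ := Real.smoothTransition (r - (R + L))
/-- inner constant -/
def KK (n m : ℕ) (R L : ℝ) : ℝ := vv n m R (R + L)
/-- the radial profile -/
def UU (n m : ℕ) (R L r : ℝ) : ℝ := KK n m R L + chi R L r * (vv n m R r - KK n m R L)
/-- inner expression of the potential -/
def AA (n m : ℕ) (R L r : ℝ) : ℝ :=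
  1 + (deriv (deriv (UU n m R L)) r + ((n : ℝ) - 1) / r * deriv (UU n m R L) r) / UU n m R L r
/-- the potential -/
def WW (n m : ℕ) (R L r : ℝ) : ℝ :=
  if r < R + L + 3 / 2 then AA n m R L r else BN n m R r

variable {n m : ℕ} {R L M r : ℝ}

lemma chi_zero (h : r ≤ R + L) : chi R L r = 0 :=
  Real.smoothTransition.zero_of_nonpos (by linarith)

lemma chi_one (h : R + L + 1 ≤ r) : chi R L r = 1 :=
  Real.smoothTransition.one_of_one_le (by linarith)

lemma chi_nonneg : 0 ≤ chi R L r := Real.smoothTransition.nonneg _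
lemma chi_le_one : chi R L r ≤ 1 := Real.smoothTransition.le_one _

lemma contDiff_chi : ContDiff ℝ (⊤ : ℕ∞) (chi R L) := by
  unfold chi
  exact Real.smoothTransition.contDiff.comp (contDiff_id.sub contDiff_const)

/-- derivatives of the cutoff -/
def chi1 (R L r : ℝ) : ℝ := deriv Real.smoothTransition (r - (R + L))
def chi2 (R L r : ℝ) : ℝ := deriv (deriv Real.smoothTransition) (r - (R + L))

lemma hasDerivAt_chi : HasDerivAt (chi R L) (chi1 R L r) r := by
  have h1 : HasDerivAt (fun x : ℝ => x - (R + L)) 1 r := (hasDerivAt_id' r).sub_const _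
  have h2 : DifferentiableAt ℝ Real.smoothTransition (r - (R + L)) :=
    (Real.smoothTransition.contDiff (n := ⊤)).differentiable (by simp) _
  have := HasDerivAt.comp (h₂ := Real.smoothTransition) (h := fun x : ℝ => x - (R + L)) r
    h2.hasDerivAt h1
  refine HasDerivAt.congr_deriv this ?_
  unfold chi1; ring

lemma hasDerivAt_chi1 : HasDerivAt (chi1 R L) (chi2 R L r) r := by
  have h1 : HasDerivAt (fun x : ℝ => x - (R + L)) 1 r := (hasDerivAt_id' r).sub_const _
  have h2 : DifferentiableAt ℝ (deriv Real.smoothTransition) (r - (R + L)) := by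
    have := (contDiff_infty_iff_deriv.1
      (Real.smoothTransition.contDiff (n := (⊤ : ℕ∞)))).2
    exact this.differentiable (by simp) _
  have := HasDerivAt.comp (h₂ := deriv Real.smoothTransition) (h := fun x : ℝ => x - (R + L)) r
    h2.hasDerivAt h1
  refine HasDerivAt.congr_deriv this ?_
  unfold chi2; ring

lemma UU_const (h : r ≤ R + L) : UU n m R L r = KK n m R L := by
  unfold UU; rw [chi_zero h]; ring

lemma UU_vv (h : R + L + 1 ≤ r) : UU n m R L r = vv n m R r := by
  unfold UU; rw [chi_one h]; ring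

lemma contDiffAt_am (n : ℕ) (hr : 0 < r) : ContDiffAt ℝ (⊤ : ℕ∞) (am n) r := by
  unfold am
  apply ContDiffAt.pow
  apply ContDiffAt.div contDiffAt_const (Real.contDiffAt_sqrt hr.ne')
  exact (Real.sqrt_pos.2 hr).ne'

lemma alg_ww (m : ℕ) (R : ℝ) : Alg R (ww m R) :=
  (Alg.icc.mul Alg.iom).mul (Alg.iDi.pow m)

lemma contDiffAt_vv (hR : 0 < R) (hr : R < r) : ContDiffAt ℝ (⊤ : ℕ∞) (vv n m R) r := by
  unfold vv
  exact (contDiffAt_am n (hR.trans hr)).mul ((alg_ww m R).contDiffAt hR hr)

lemma contDiff_UU (P : Par n m R L M) : ContDiff ℝ (⊤ : ℕ∞) (UU n m R L) := by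
  have hR := P.Rpos
  have hL := P.L0
  rw [contDiff_iff_contDiffAt]
  intro x
  rcases lt_or_ge x (R + L) with hx | hx
  · have h1 : UU n m R L =ᶠ[𝓝 x] fun _ => KK n m R L := by
      filter_upwards [Iio_mem_nhds hx] with z hz
      exact UU_const (le_of_lt hz)
    exact contDiffAt_const.congr_of_eventuallyEq h1
  · have hx2 : R < x := by linarith
    unfold UU
    exact contDiffAt_const.add (contDiff_chi.contDiffAt.mul
      ((contDiffAt_vv hR hx2).sub contDiffAt_const))

/-- first derivative of the profile on `(R, ∞)` -/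
def UU1 (n m : ℕ) (R L r : ℝ) : ℝ :=
  chi1 R L r * (vv n m R r - KK n m R L) + chi R L r * vv1 n m R r
/-- second derivative of the profile on `(R, ∞)` -/
def UU2 (n m : ℕ) (R L r : ℝ) : ℝ :=
  chi2 R L r * (vv n m R r - KK n m R L) + 2 * chi1 R L r * vv1 n m R r +
    chi R L r * ((BN n m R r - 1) * vv n m R r - ((n - 1 : ℕ) : ℝ) * ri r * vv1 n m R r)

lemma hasDerivAt_UU (hR : 0 < R) (hr : R < r) :
    HasDerivAt (UU n m R L) (UU1 n m R L r) r := by
  have h := (hasDerivAt_chi (R := R) (L := L) (r := r)).mul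
    ((hasDerivAt_vv hR hr n m).sub_const (KK n m R L))
  exact h.const_add _

lemma hasDerivAt_UU1 (hR : 0 < R) (hr : R < r) :
    HasDerivAt (UU1 n m R L) (UU2 n m R L r) r := by
  have h := ((hasDerivAt_chi1 (R := R) (L := L) (r := r)).mul
    ((hasDerivAt_vv hR hr n m).sub_const (KK n m R L))).add
    ((hasDerivAt_chi (R := R) (L := L) (r := r)).mul (hasDerivAt_vv1 hR hr n m))
  refine HasDerivAt.congr_deriv h ?_
  unfold UU2; ring

lemma deriv_UU (hR : 0 < R) (hr : R < r) : deriv (UU n m R L) r = UU1 n m R L r :=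
  (hasDerivAt_UU hR hr).deriv

lemma deriv2_UU (hR : 0 < R) (hr : R < r) : deriv (deriv (UU n m R L)) r = UU2 n m R L r := by
  have h1 : deriv (UU n m R L) =ᶠ[𝓝 r] UU1 n m R L := by
    filter_upwards [Ioi_mem_nhds hr] with z hz
    exact deriv_UU hR hz
  rw [h1.deriv_eq]
  exact (hasDerivAt_UU1 hR hr).deriv

lemma deriv_UU_zero (h : r < R + L) : deriv (UU n m R L) r = 0 := by
  have h1 : UU n m R L =ᶠ[𝓝 r] fun _ => KK n m R L := by
    filter_upwards [Iio_mem_nhds h] with z hz
    exact UU_const (le_of_lt hz)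
  rw [h1.deriv_eq]
  simp

lemma deriv2_UU_zero (h : r < R + L) : deriv (deriv (UU n m R L)) r = 0 := by
  have h1 : deriv (UU n m R L) =ᶠ[𝓝 r] fun _ => 0 := by
    filter_upwards [Iio_mem_nhds h] with z hz
    exact deriv_UU_zero hz
  rw [h1.deriv_eq]
  simp

/-- the radial Laplacian of the profile -/
lemma lap_UU (P : Par n m R L M) (hr : R < r) :
    deriv (deriv (UU n m R L)) r + ((n : ℝ) - 1) / r * deriv (UU n m R L) r =
      chi R L r * ((BN n m R r - 1) * vv n m R r) + 2 * chi1 R L r * vv1 n m R r +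
        (chi2 R L r + ((n : ℝ) - 1) * ri r * chi1 R L r) * (vv n m R r - KK n m R L) := by
  rw [deriv_UU P.Rpos hr, deriv2_UU P.Rpos hr]
  unfold UU2 UU1
  rw [P.kk]
  unfold ri
  ring

lemma mono_Icc {g g' : ℝ → ℝ} {a b : ℝ} (h : ∀ x ∈ Icc a b, HasDerivAt g (g' x) x)
    (h0 : ∀ x ∈ Icc a b, 0 ≤ g' x) {x : ℝ} (hx : x ∈ Icc a b) : g a ≤ g x := by
  have hm : MonotoneOn g (Icc a b) := by
    apply monotoneOn_of_deriv_nonneg (convex_Icc a b)
    · exact fun x hx => (h x hx).continuousAt.continuousWithinAt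
    · intro x hx
      rw [interior_Icc] at hx
      exact (h x (Ioo_subset_Icc_self hx)).differentiableAt.differentiableWithinAt
    · intro x hx
      rw [interior_Icc] at hx
      have hx' := Ioo_subset_Icc_self hx
      rw [(h x hx').deriv]
      exact h0 x hx'
  exact hm (left_mem_Icc.2 (hx.1.trans hx.2)) hx hx.1

section region
variable (P : Par n m R L M)
include P

lemma Par.KK_pos : 0 < KK n m R L := P.vv_pos le_rfl (by linarith)

lemma Par.v_lower {x : ℝ} (hx : x ∈ Icc (R + L) (R + L + 1)) :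
    KK n m R L ≤ vv n m R x * Real.exp (2 / L * (x - (R + L))) := by
  have hR := P.Rpos
  have hL := P.L0
  have hd : ∀ x ∈ Icc (R + L) (R + L + 1),
      HasDerivAt (fun x => vv n m R x * Real.exp (2 / L * (x - (R + L))))
        ((vv1 n m R x + 2 / L * vv n m R x) * Real.exp (2 / L * (x - (R + L)))) x := by
    intro x hx
    have h1 : R < x := by linarith [hx.1]
    have h2 : HasDerivAt (fun x : ℝ => 2 / L * (x - (R + L))) (2 / L * 1) x :=
      ((hasDerivAt_id' x).sub_const _).const_mul _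
    refine HasDerivAt.congr_deriv ((hasDerivAt_vv hR h1 n m).mul h2.exp) ?_
    ring
  have := mono_Icc hd (fun x hx => by
    have h3 := (abs_le.1 (P.vv1_abs hx.1 (by linarith [hx.2]))).1
    apply mul_nonneg _ (Real.exp_pos _).le
    linarith) hx
  simp only [sub_self, mul_zero, Real.exp_zero, mul_one] at this
  exact this

lemma Par.v_upper {x : ℝ} (hx : x ∈ Icc (R + L) (R + L + 1)) :
    vv n m R x * Real.exp (-(2 / L) * (x - (R + L))) ≤ KK n m R L := by
  have hR := P.Rpos
  have hL := P.L0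
  have hd : ∀ x ∈ Icc (R + L) (R + L + 1),
      HasDerivAt (fun x => -(vv n m R x * Real.exp (-(2 / L) * (x - (R + L)))))
        (-((vv1 n m R x - 2 / L * vv n m R x) * Real.exp (-(2 / L) * (x - (R + L))))) x := by
    intro x hx
    have h1 : R < x := by linarith [hx.1]
    have h2 : HasDerivAt (fun x : ℝ => -(2 / L) * (x - (R + L))) (-(2 / L) * 1) x :=
      ((hasDerivAt_id' x).sub_const _).const_mul _
    refine HasDerivAt.congr_deriv ((hasDerivAt_vv hR h1 n m).mul h2.exp).neg ?_
    ring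
  have := mono_Icc hd (fun x hx => by
    have h3 := (abs_le.1 (P.vv1_abs hx.1 (by linarith [hx.2]))).2
    rw [← neg_mul]
    apply mul_nonneg _ (Real.exp_pos _).le
    linarith) hx
  simp only [sub_self, mul_zero, Real.exp_zero, mul_one] at this
  unfold KK
  linarith

lemma Par.v_bounds {x : ℝ} (hx : x ∈ Icc (R + L) (R + L + 1)) :
    KK n m R L / 2 ≤ vv n m R x ∧ vv n m R x ≤ 2 * KK n m R L ∧
      |vv n m R x - KK n m R L| ≤ 4 / L * KK n m R L := by
  have hL := P.L0
  have hK := P.KK_pos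
  have hv := P.vv_pos hx.1 (by linarith [hx.2])
  have h1 := P.v_lower hx
  have h2 := P.v_upper hx
  set z := 2 / L * (x - (R + L)) with hz
  have hL' : 2 / L ≤ 1 / 2 := by
    rw [div_le_div_iff₀ (by positivity) (by norm_num)]; linarith
  have hL0 : 0 < 2 / L := by positivity
  have hz0 : 0 ≤ z := by
    have : 0 ≤ x - (R + L) := by linarith [hx.1]
    rw [hz]; positivity
  have hz1 : z ≤ 2 / L := by
    have : x - (R + L) ≤ 1 := by linarith [hx.2]
    calc z ≤ 2 / L * 1 := by rw [hz]; gcongr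
      _ = 2 / L := mul_one _
  have e1 : -(2 / L) * (x - (R + L)) = -z := by rw [hz]; ring
  rw [e1] at h2
  -- `exp (-z) ≥ 1 - z`
  have e2 : 1 - z ≤ Real.exp (-z) := by
    have := Real.add_one_le_exp (-z)
    linarith
  have e3 : Real.exp z * Real.exp (-z) = 1 := by rw [← Real.exp_add]; simp
  have e4 : 0 < Real.exp z := Real.exp_pos z
  have e6 : (1 / 2 : ℝ) ≤ Real.exp (-z) := by linarith
  have e5 : Real.exp z ≤ 2 := by nlinarith
  have b2 : vv n m R x ≤ 2 * KK n m R L := by
    have : vv n m R x * (1 / 2) ≤ vv n m R x * Real.exp (-z) := by gcongr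
    linarith
  have b1 : KK n m R L / 2 ≤ vv n m R x := by
    have : vv n m R x * Real.exp z ≤ vv n m R x * 2 := by gcongr
    linarith
  refine ⟨b1, b2, ?_⟩
  rw [abs_le]
  constructor
  · -- `v ≥ K exp(-z) ≥ K (1 - z)`
    have h3 : KK n m R L * Real.exp (-z) ≤ vv n m R x := by
      calc KK n m R L * Real.exp (-z) ≤ (vv n m R x * Real.exp z) * Real.exp (-z) := by gcongr
        _ = vv n m R x * (Real.exp z * Real.exp (-z)) := by ring
        _ = vv n m R x := by rw [e3, mul_one]
    have h4 : KK n m R L * (1 - z) ≤ KK n m R L * Real.exp (-z) := by gcongr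
    have h5 : KK n m R L * z ≤ KK n m R L * (4 / L) := by
      have : 2 / L ≤ 4 / L := by gcongr; norm_num
      gcongr
      linarith
    linarith
  · -- `v (1 - z) ≤ v exp(-z) ≤ K`
    have h3 : vv n m R x * (1 - z) ≤ vv n m R x * Real.exp (-z) := by gcongr
    have h4 : vv n m R x * z ≤ (2 * KK n m R L) * (2 / L) := by gcongr
    have h5 : (2 * KK n m R L) * (2 / L) = 4 / L * KK n m R L := by ring
    linarith

lemma Par.UU_ge {x : ℝ} (hx : x ∈ Icc (R + L) (R + L + 1)) :
    KK n m R L / 2 ≤ UU n m R L x ∧ chi R L x * vv n m R x ≤ UU n m R L x := by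
  have hK := P.KK_pos
  obtain ⟨b1, b2, b3⟩ := P.v_bounds hx
  have c0 := chi_nonneg (R := R) (L := L) (r := x)
  have c1 := chi_le_one (R := R) (L := L) (r := x)
  have e : UU n m R L x = (1 - chi R L x) * KK n m R L + chi R L x * vv n m R x := by
    unfold UU; ring
  rw [e]
  constructor
  · have : chi R L x * (KK n m R L / 2) ≤ chi R L x * vv n m R x := by gcongr
    nlinarith
  · have : 0 ≤ (1 - chi R L x) * KK n m R L := mul_nonneg (by linarith) hK.le
    linarith

lemma Par.UU_pos {x : ℝ} (hx : x ≤ R + L + 2) : 0 < UU n m R L x := by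
  have hK := P.KK_pos
  rcases le_or_gt x (R + L) with h | h
  · rw [UU_const h]; exact hK
  · rcases le_or_gt x (R + L + 1) with h' | h'
    · have := (P.UU_ge ⟨h.le, h'⟩).1
      linarith
    · rw [UU_vv h'.le]
      exact P.vv_pos h.le hx

/-- the potential is at least `1/2` in the gluing region -/
lemma Par.AA_ge {x : ℝ} (hx : x ∈ Icc (R + L) (R + L + 1)) : 1 / 2 ≤ AA n m R L x := by
  have hR := P.Rpos
  have hL := P.L0
  have hK := P.KK_pos
  have hM := P.hM
  have hnn := P.nR
  have hxR : R < x := by linarith [hx.1]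
  have hx0 : 0 < x := hR.trans hxR
  have hx2 : x ≤ R + L + 2 := by linarith [hx.2]
  obtain ⟨b1, b2, b3⟩ := P.v_bounds hx
  obtain ⟨u1, u2⟩ := P.UU_ge hx
  have hv := P.vv_pos hx.1 hx2
  have hv1 := P.vv1_abs hx.1 hx2
  have hB := P.BN_region hx.1 hx2
  have c0 := chi_nonneg (R := R) (L := L) (r := x)
  have hU : 0 < UU n m R L x := P.UU_pos hx2
  have m1 : |chi1 R L x| ≤ M := P.hM1 _
  have m2 : |chi2 R L x| ≤ M := P.hM2 _
  have t1 : -(1 / 4 * UU n m R L x) ≤ chi R L x * ((BN n m R x - 1) * vv n m R x) := by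
    have : chi R L x * vv n m R x * (1 - BN n m R x) ≤ UU n m R L x * (1 / 4) := by
      have h3 : 0 ≤ chi R L x * vv n m R x := mul_nonneg c0 hv.le
      calc chi R L x * vv n m R x * (1 - BN n m R x) ≤ chi R L x * vv n m R x * (1 / 4) := by
            gcongr; linarith
        _ ≤ UU n m R L x * (1 / 4) := by gcongr
    nlinarith
  have t2 : |2 * chi1 R L x * vv1 n m R x| ≤ 8 * M / L * KK n m R L := by
    rw [abs_mul, abs_mul, abs_two]
    calc 2 * |chi1 R L x| * |vv1 n m R x| ≤ 2 * M * (2 / L * (2 * KK n m R L)) := by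
          have : |vv1 n m R x| ≤ 2 / L * (2 * KK n m R L) := hv1.trans (by gcongr)
          gcongr
      _ = 8 * M / L * KK n m R L := by ring
  have t3 : |(chi2 R L x + ((n : ℝ) - 1) * ri x * chi1 R L x) * (vv n m R x - KK n m R L)| ≤
      4 * n * M / L * KK n m R L := by
    rw [abs_mul]
    have h3 : |chi2 R L x + ((n : ℝ) - 1) * ri x * chi1 R L x| ≤ n * M := by
      refine (abs_add_le _ _).trans ?_
      have hri : 0 < ri x := by unfold ri; positivity
      have hri1 : ri x ≤ 1 := by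
        unfold ri
        rw [div_le_one hx0]
        have := P.R0
        linarith
      have h4 : |((n : ℝ) - 1) * ri x * chi1 R L x| ≤ ((n : ℝ) - 1) * M := by
        have hn1 : (0 : ℝ) ≤ (n : ℝ) - 1 := by linarith
        rw [abs_mul, abs_of_nonneg (mul_nonneg hn1 hri.le)]
        calc ((n : ℝ) - 1) * ri x * |chi1 R L x| ≤ ((n : ℝ) - 1) * 1 * M := by gcongr
          _ = ((n : ℝ) - 1) * M := by ring
      calc |chi2 R L x| + |((n : ℝ) - 1) * ri x * chi1 R L x| ≤ M + ((n : ℝ) - 1) * M :=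
            add_le_add m2 h4
        _ = n * M := by ring
    calc |chi2 R L x + ((n : ℝ) - 1) * ri x * chi1 R L x| * |vv n m R x - KK n m R L|
        ≤ (n * M) * (4 / L * KK n m R L) := by gcongr
      _ = 4 * n * M / L * KK n m R L := by ring
  have hLM : 8 * M / L * KK n m R L + 4 * n * M / L * KK n m R L ≤ 1 / 4 * UU n m R L x := by
    have h3 : 8 * M / L * KK n m R L + 4 * n * M / L * KK n m R L =
        (8 + 4 * n) * M / L * KK n m R L := by ring
    have h4 : (8 + 4 * (n : ℝ)) * M / L ≤ 1 / 8 := by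
      rw [div_le_iff₀ (by positivity)]
      have := P.hL
      nlinarith
    rw [h3]
    calc (8 + 4 * (n : ℝ)) * M / L * KK n m R L ≤ 1 / 8 * KK n m R L := by gcongr
      _ ≤ 1 / 4 * UU n m R L x := by linarith
  have key : -(1 / 2 * UU n m R L x) ≤
      deriv (deriv (UU n m R L)) x + ((n : ℝ) - 1) / x * deriv (UU n m R L) x := by
    rw [lap_UU P hxR]
    have t2' := (abs_le.1 t2).1
    have t3' := (abs_le.1 t3).1
    linarith
  unfold AA
  have : -(1 / 2) ≤ (deriv (deriv (UU n m R L)) x + ((n : ℝ) - 1) / x * deriv (UU n m R L) x) /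
      UU n m R L x := by
    rw [le_div_iff₀ hU]
    linarith
  linarith

lemma Par.AA_eq_BN (h1 : R + L + 1 < r) (h2 : r ≤ R + L + 2) : AA n m R L r = BN n m R r := by
  have hR := P.Rpos
  have hL := P.L0
  have hrR : R < r := by linarith
  have c1 : chi R L r = 1 := chi_one h1.le
  have d1 : chi1 R L r = 0 := by
    have h3 : chi R L =ᶠ[𝓝 r] fun _ => 1 := by
      filter_upwards [Ioi_mem_nhds h1] with z hz
      exact chi_one (le_of_lt hz)
    have := (hasDerivAt_chi (R := R) (L := L) (r := r)).deriv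
    rw [h3.deriv_eq] at this
    simpa using this.symm
  have d2 : chi2 R L r = 0 := by
    have h3 : chi1 R L =ᶠ[𝓝 r] fun _ => 0 := by
      filter_upwards [Ioi_mem_nhds h1] with z hz
      have h4 : chi R L =ᶠ[𝓝 z] fun _ => 1 := by
        filter_upwards [Ioi_mem_nhds hz] with y hy
        exact chi_one (le_of_lt hy)
      have := (hasDerivAt_chi (R := R) (L := L) (r := z)).deriv
      rw [h4.deriv_eq] at this
      simpa using this.symm
    have := (hasDerivAt_chi1 (R := R) (L := L) (r := r)).deriv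
    rw [h3.deriv_eq] at this
    simpa using this.symm
  have hU : UU n m R L r = vv n m R r := UU_vv h1.le
  have hv := P.vv_pos (by linarith) h2
  unfold AA
  rw [lap_UU P hrR, c1, d1, d2, hU]
  field_simp
  ring

omit P in
lemma WW_AA (h : r < R + L + 3 / 2) : WW n m R L r = AA n m R L r := by
  unfold WW; rw [if_pos h]

lemma Par.WW_BN (h : R + L + 1 < r) : WW n m R L r = BN n m R r := by
  unfold WW
  split_ifs with h2
  · exact P.AA_eq_BN h (by linarith)
  · rfl

lemma Par.WW_one (h : r < R + L) : WW n m R L r = 1 := by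
  rw [WW_AA (by linarith)]
  unfold AA
  rw [deriv_UU_zero h, deriv2_UU_zero h]
  simp

omit P in
lemma alg_BB : Alg R (BB m R) := by
  have h1 : Alg R (fun x => 1 - et R x ^ 4) := (Alg.iconst 1).sub (Alg.iet.pow 4)
  have h2 : Alg R (fun x => 2 * R * ri x ^ 3 * om R x) :=
    ((Alg.iconst (2 * R)).mul (Alg.iri.pow 3)).mul Alg.iom
  have h3 : Alg R (fun x => 2 * R ^ 2 * ri x ^ 4 * om R x ^ 2) :=
    ((Alg.iconst (2 * R ^ 2)).mul (Alg.iri.pow 4)).mul (Alg.iom.pow 2)
  have h4 : Alg R (fun x => 8 * m * et R x ^ 4 * (ss R x * cc R x) * QQ R x) :=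
    (((Alg.iconst (8 * m)).mul (Alg.iet.pow 4)).mul (Alg.iss.mul Alg.icc)).mul Alg.iQQ
  have h5 : Alg R (fun x => et R x ^ 4 * cc R x ^ 4 *
      (-(2 * m) * Di R x + 4 * m * (m + 1) * QQ R x ^ 2)) :=
    ((Alg.iet.pow 4).mul (Alg.icc.pow 4)).mul
      (((Alg.iconst (-(2 * m))).mul Alg.iDi).add
        ((Alg.iconst (4 * m * (m + 1))).mul (Alg.iQQ.pow 2)))
  exact ((((h1.add h2).add h3).add h4).add h5)

end region

end

end NLSn
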