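import Pool.Agent.Lib52.NLSn.Prof4
import Pool.Agent.Lib52.NLSn.Final

/-!
# Module G: existence of the profile
-/

namespace NLSn

open MeasureTheory Filter Topology Set

noncomputable section

variable {n m : ℕ} {R L M r : ℝ}

lemma contDiff_WW (P : Par n m R L M) : ContDiff ℝ (⊤ : ℕ∞) (WW n m R L) := by
  have hR := P.Rpos
  have hL := P.L0
  rw [contDiff_iff_contDiffAt]
  intro x
  rcases lt_or_ge x (R + L) with hx | hx
  · have h1 : WW n m R L =ᶠ[𝓝 x] fun _ => 1 := by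
      filter_upwards [Iio_mem_nhds hx] with z hz
      exact P.WW_one hz
    exact contDiffAt_const.congr_of_eventuallyEq h1
  · rcases lt_or_ge x (R + L + 3 / 2) with hx2 | hx2
    · have h1 : WW n m R L =ᶠ[𝓝 x] AA n m R L := by
        filter_upwards [Iio_mem_nhds hx2] with z hz
        exact WW_AA hz
      refine ContDiffAt.congr_of_eventuallyEq ?_ h1
      have hx0 : x ≠ 0 := by
        have : 0 < x := by linarith
        exact this.ne'
      have hU0 : UU n m R L x ≠ 0 := (P.UU_pos (by linarith)).ne'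
      have c1 : ContDiff ℝ (⊤ : ℕ∞) (deriv (UU n m R L)) :=
        (contDiff_infty_iff_deriv.1 (contDiff_UU P)).2
      have c2 : ContDiff ℝ (⊤ : ℕ∞) (deriv (deriv (UU n m R L))) :=
        (contDiff_infty_iff_deriv.1 c1).2
      unfold AA
      exact contDiffAt_const.add ((c2.contDiffAt.add ((contDiffAt_const.div contDiffAt_id hx0).mul
        c1.contDiffAt)).div (contDiff_UU P).contDiffAt hU0)
    · have h1 : WW n m R L =ᶠ[𝓝 x] BN n m R := by
        filter_upwards [Ioi_mem_nhds (show R + L + 1 < x by linarith)] with z hz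
        exact P.WW_BN hz
      refine ContDiffAt.congr_of_eventuallyEq ?_ h1
      unfold BN
      exact (alg_BB.contDiffAt hR (by linarith)).sub
        (contDiffAt_const.mul ((Alg.iri.contDiffAt hR (by linarith)).pow 2))

lemma WW_eqn (P : Par n m R L M) (_hr : 0 < r) :
    deriv (deriv (UU n m R L)) r + ((n : ℝ) - 1) / r * deriv (UU n m R L) r =
      (WW n m R L r - 1) * UU n m R L r := by
  have hR := P.Rpos
  have hL := P.L0
  rcases lt_or_ge r (R + L + 3 / 2) with h | h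
  · rw [WW_AA h]
    have hU0 : UU n m R L r ≠ 0 := (P.UU_pos (by linarith)).ne'
    unfold AA
    rw [add_sub_cancel_left, div_mul_cancel₀ _ hU0]
  · have h1 : R + L + 1 < r := by linarith
    rw [P.WW_BN h1, UU_vv h1.le, lap_UU P (by linarith)]
    have c1 : chi R L r = 1 := chi_one h1.le
    have d1 : chi1 R L r = 0 := by
      have h3 : chi R L =ᶠ[𝓝 r] fun _ => 1 := by
        filter_upwards [Ioi_mem_nhds h1] with z hz
        exact chi_one (le_of_lt hz)
      have := (hasDerivAt_chi (R := R) (L := L) (r := r)).deriv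
      rw [h3.deriv_eq] at this
      simpa using this.symm
    have d2 : chi2 R L r = 0 := by
      have h3 : chi1 R L =ᶠ[𝓝 r] fun _ => 0 := by
        filter_upwards [Ioi_mem_nhds h1] with z hz
        have h4 : chi R L =ᶠ[𝓝 z] fun _ => 1 := by
          filter_upwards [Ioi_mem_nhds hz] with y hy
          exact chi_one (le_of_lt hy)
        have := (hasDerivAt_chi (R := R) (L := L) (r := z)).deriv
        rw [h4.deriv_eq] at this
        simpa using this.symm
      have := (hasDerivAt_chi1 (R := R) (L := L) (r := r)).deriv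
      rw [h3.deriv_eq] at this
      simpa using this.symm
    rw [c1, d1, d2]
    ring

lemma WW_lower (P : Par n m R L M) (hr : 0 ≤ r) : 1 / 2 / (1 + r) ≤ WW n m R L r := by
  have hR := P.Rpos
  have hL := P.L0
  have e1 : 1 / 2 / (1 + r) ≤ 1 / 2 := by
    rw [div_le_iff₀ (by linarith)]
    nlinarith
  rcases lt_or_ge r (R + L) with h | h
  · rw [P.WW_one h]; linarith
  · rcases le_or_gt r (R + L + 1) with h2 | h2
    · rw [WW_AA (by linarith)]
      have := P.AA_ge ⟨h, h2⟩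
      linarith
    · rw [P.WW_BN h2]
      have h3 := P.BN_ge (show R < r by linarith)
      have hr0 : 0 < r := by linarith
      have h4 : 1 / 2 / (1 + r) ≤ 1 / r := by
        rw [div_le_div_iff₀ (by linarith) hr0]
        linarith
      linarith

lemma am_sq (n : ℕ) (hr : 0 < r) : am n r ^ 2 = ri r ^ (n - 1) := by
  unfold am ri
  rw [← pow_mul, mul_comm, pow_mul, div_pow, one_pow, Real.sq_sqrt hr.le]

lemma am_rpow (n : ℕ) (hr : 0 < r) : am n r = r ^ (-(((n - 1 : ℕ) : ℝ) / 2)) := by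
  unfold am
  have h1 : 1 / √r = r ^ (-(1 / 2 : ℝ)) := by
    rw [Real.rpow_neg hr.le, ← Real.sqrt_eq_rpow, one_div]
  rw [h1, ← Real.rpow_natCast, ← Real.rpow_mul hr.le]
  congr 1
  ring

lemma dec_one_sub_et : Dec R (fun x => 1 - et R x ^ 4) :=
  (Dec.mul ((Alg.iconst R).mul ((Alg.iconst 1).add (Alg.iet.add ((Alg.iet.pow 2).add
    (Alg.iet.pow 3))))) Dec.jri).congr (fun x => by unfold et; ring)

lemma dec_BN : Dec R (BN n m R) := by
  have h2 : Dec R (fun x => 2 * R * ri x ^ 3 * om R x) :=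
    (Dec.mul (((Alg.iconst (2 * R)).mul (Alg.iri.pow 2)).mul Alg.iom) Dec.jri).congr
      (fun x => by ring)
  have h3 : Dec R (fun x => 2 * R ^ 2 * ri x ^ 4 * om R x ^ 2) :=
    (Dec.mul (((Alg.iconst (2 * R ^ 2)).mul (Alg.iri.pow 3)).mul (Alg.iom.pow 2)) Dec.jri).congr
      (fun x => by ring)
  have h4 : Dec R (fun x => 8 * m * et R x ^ 4 * (ss R x * cc R x) * QQ R x) :=
    Dec.mul (((Alg.iconst (8 * m)).mul (Alg.iet.pow 4)).mul (Alg.iss.mul Alg.icc)) Dec.jQQ
  have h5 : Dec R (fun x => et R x ^ 4 * cc R x ^ 4 *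
      (-(2 * m) * Di R x + 4 * m * (m + 1) * QQ R x ^ 2)) :=
    Dec.mul ((Alg.iet.pow 4).mul (Alg.icc.pow 4))
      ((Dec.mul (Alg.iconst (-(2 * m))) Dec.jDi).add
        ((Dec.mul ((Alg.iconst (4 * m * (m + 1))).mul Alg.iQQ) Dec.jQQ).congr
          (g := fun x => 4 * m * (m + 1) * QQ R x ^ 2) (fun x => by ring)))
  have h6 : Dec R (fun x => ((n - 1 : ℕ) : ℝ) * (((n - 1 : ℕ) : ℝ) - 2) / 4 * ri x ^ 2) :=
    (Dec.mul ((Alg.iconst (((n - 1 : ℕ) : ℝ) * (((n - 1 : ℕ) : ℝ) - 2) / 4)).mul Alg.iri)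
      Dec.jri).congr (fun x => by ring)
  exact ((((dec_one_sub_et.add h2).add h3).add h4).add h5).sub h6

/-- symbol of `vv²` -/
def v2 (n m : ℕ) (R r : ℝ) : ℝ := ri r ^ (n - 1) * (cc R r ^ 2 * om R r ^ 2) * Di R r ^ (2 * m)

lemma vv_sq (hr : 0 < r) : vv n m R r ^ 2 = v2 n m R r := by
  unfold vv ww v2
  rw [mul_pow, am_sq n hr, mul_pow, mul_pow, ← pow_mul, mul_comm m 2]
  ring

lemma dec_v2 (hm : 1 ≤ m) : Dec R (v2 n m R) := by
  obtain ⟨k, hk⟩ := Nat.exists_eq_add_of_le hm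
  refine (Dec.mul (((Alg.iri.pow (n - 1)).mul ((Alg.icc.pow 2).mul (Alg.iom.pow 2))).mul
    (Alg.iDi.pow (2 * k + 1))) Dec.jDi).congr (fun x => ?_)
  unfold v2
  have : 2 * m = (2 * k + 1) + 1 := by omega
  rw [this, pow_succ (Di R x) (2 * k + 1)]
  ring

lemma OX_v2 (hR : 0 < R) {X : ℝ} (hX : R < X) (hm : 1 ≤ m) : OX X 2 (v2 n m R) := by
  obtain ⟨k, hk⟩ := Nat.exists_eq_add_of_le hm
  have hX0 : 0 < X := hR.trans hX
  have h := OX.mul hX0 (OX_alg hR hX (((Alg.iri.pow (n - 1)).mul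
    ((Alg.icc.pow 2).mul (Alg.iom.pow 2))).mul (Alg.iDi.pow (2 * k + 1)))) (OX_Di hR hX)
  have h2 : OX X 2 (fun r => ri r ^ (n - 1) * (cc R r ^ 2 * om R r ^ 2) *
      Di R r ^ (2 * k + 1) * Di R r) := by simpa using h
  refine h2.congr (fun x _ => ?_)
  unfold v2
  have : 2 * m = (2 * k + 1) + 1 := by omega
  rw [this, pow_succ (Di R x) (2 * k + 1)]
  ring

lemma decV (P : Par n m R L M) (hm : 1 ≤ m) (ε : ℝ) (k : ℕ) : ∃ C r1 : ℝ, ∀ r, r1 ≤ r →
    |iteratedDeriv k (fun r => WW n m R L r - ε * UU n m R L r ^ 2) r| ≤ C / r := by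
  have hR := P.Rpos
  have hL := P.L0
  have hd : Dec R (fun x => BN n m R x - ε * v2 n m R x) :=
    dec_BN.sub (Dec.mul (Alg.iconst ε) (dec_v2 hm))
  obtain ⟨fk, h1, h2⟩ := Dec.iter hR (X := R + L + 1) (by linarith) hd
    (g := fun r => WW n m R L r - ε * UU n m R L r ^ 2) (fun x hx => by
      rw [P.WW_BN hx, UU_vv hx.le, vv_sq (by linarith)]) k
  obtain ⟨K, hK, h3⟩ := h1.OX hR (X := R + L + 2) (by linarith)
  refine ⟨K, R + L + 2, fun x hx => ?_⟩
  rw [h2 x (by linarith)]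
  simpa using h3 x hx

lemma decU (P : Par n m R L M) : ∃ C : ℝ, ∀ r, 0 ≤ r →
    |UU n m R L r| ≤ C * (1 + r) ^ (-(((n : ℝ) - 1) / 2 + 2 * m)) ∧
    |deriv (UU n m R L) r| ≤ C * (1 + r) ^ (-(((n : ℝ) - 1) / 2 + 2 * m)) := by
  have hR := P.Rpos
  have hL := P.L0
  have hnn := P.nR
  set β : ℝ := ((n : ℝ) - 1) / 2 + 2 * m with hβ
  have hβ0 : 0 ≤ β := by
    have hm : (0 : ℝ) ≤ m := Nat.cast_nonneg m
    rw [hβ]
    have : (0 : ℝ) ≤ ((n : ℝ) - 1) / 2 := by linarith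
    positivity
  set X := R + L + 2 with hX
  have hXR : R < X := by linarith
  have hX0 : 0 < X := hR.trans hXR
  -- compact part
  have c1 : Continuous (UU n m R L) := (contDiff_UU P).continuous
  have c2 : Continuous (deriv (UU n m R L)) := by
    exact ((contDiff_infty_iff_deriv.1 (contDiff_UU P)).2).continuous
  obtain ⟨K1, hK1⟩ := (isCompact_Icc (a := (0 : ℝ)) (b := X)).exists_bound_of_continuousOn
    c1.continuousOn
  obtain ⟨K2, hK2⟩ := (isCompact_Icc (a := (0 : ℝ)) (b := X)).exists_bound_of_continuousOn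
    c2.continuousOn
  -- outer part
  have hAlg1 : Alg R (fun x => cc R x * om R x) := Alg.icc.mul Alg.iom
  have hAlg2 : Alg R (fun x => -(((n - 1 : ℕ) : ℝ) / 2) * ri x * (cc R x * om R x) +
      (-(ss R x * et R x) - R * ri x ^ 2 * (cc R x * om R x ^ 2) -
        2 * m * QQ R x * (et R x * cc R x ^ 3))) := by
    refine Alg.add (((Alg.iconst _).mul Alg.iri).mul hAlg1) ?_
    refine Alg.sub (Alg.sub (Alg.iss.mul Alg.iet).neg ?_) ?_
    · exact ((Alg.iconst R).mul (Alg.iri.pow 2)).mul (Alg.icc.mul (Alg.iom.pow 2))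
    · exact ((Alg.iconst (2 * m)).mul Alg.iQQ).mul (Alg.iet.mul (Alg.icc.pow 3))
  obtain ⟨K3, hK3, h3⟩ := hAlg1.bdd hR hXR
  obtain ⟨K4, hK4, h4⟩ := hAlg2.bdd hR hXR
  set Q : ℝ := (96 + 2 * R) ^ (2 * m) with hQ
  have hQ0 : 0 ≤ Q := by positivity
  have hamDi : ∀ x, X ≤ x → am n x * Di R x ^ m ≤ Q * x ^ (-β) := by
    intro x hx
    have hxR : R < x := lt_of_lt_of_le hXR hx
    have hx0 : 0 < x := hR.trans hxR
    have h5 := Di_le hR hxR
    have h6 : Di R x ^ m ≤ (((96 + 2 * R) / x) ^ 2) ^ m := by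
      have := (Di_pos (R := R) (r := x)).le
      gcongr
    rw [am_rpow n hx0, P.kk]
    have h7 : (((96 + 2 * R) / x) ^ 2) ^ m = Q * x ^ (-(2 * (m : ℝ))) := by
      rw [← pow_mul, div_pow, hQ, Real.rpow_neg hx0.le, div_eq_mul_inv]
      congr 2
      rw [← Real.rpow_natCast]
      push_cast
      rfl
    have h8 : 0 ≤ x ^ (-(((n : ℝ) - 1) / 2)) := by positivity
    calc x ^ (-(((n : ℝ) - 1) / 2)) * Di R x ^ m
        ≤ x ^ (-(((n : ℝ) - 1) / 2)) * (Q * x ^ (-(2 * (m : ℝ)))) := by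
          rw [← h7]; gcongr
      _ = Q * (x ^ (-(((n : ℝ) - 1) / 2)) * x ^ (-(2 * (m : ℝ)))) := by ring
      _ = Q * x ^ (-β) := by
          rw [← Real.rpow_add hx0]
          congr 2
          rw [hβ]; ring
  have hcmp : ∀ x, X ≤ x → x ^ (-β) ≤ 2 ^ β * (1 + x) ^ (-β) := by
    intro x hx
    have hx1 : 1 ≤ x := by linarith
    have hx0 : 0 < x := by linarith
    rw [Real.rpow_neg hx0.le, Real.rpow_neg (by linarith), ← div_eq_mul_inv, inv_eq_one_div,
      div_le_div_iff₀ (by positivity) (by positivity), one_mul, ← Real.mul_rpow (by norm_num) hx0.le]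
    exact Real.rpow_le_rpow (by linarith) (by linarith) hβ0
  have hin : ∀ x, 0 ≤ x → x ≤ X → 1 ≤ (1 + X) ^ β * (1 + x) ^ (-β) := by
    intro x hx0 hx
    rw [Real.rpow_neg (by linarith), ← div_eq_mul_inv, one_le_div (by positivity)]
    exact Real.rpow_le_rpow (by linarith) (by linarith) hβ0
  set C : ℝ := (|K1| + |K2|) * (1 + X) ^ β + (K3 + K4) * Q * 2 ^ β with hC
  have hout : ∀ (x a : ℝ), X ≤ x → 0 ≤ a → a ≤ K3 + K4 →
      am n x * Di R x ^ m * a ≤ C * (1 + x) ^ (-β) := by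
    intro x a hx ha0 ha
    have hx0 : 0 < x := lt_of_lt_of_le hX0 hx
    have h5 := hamDi x hx
    have h6 := hcmp x hx
    have h7 : 0 ≤ am n x * Di R x ^ m := by
      have : 0 ≤ am n x := by unfold am; positivity
      have := (Di_pos (R := R) (r := x)).le
      positivity
    have h9 : 0 ≤ (1 + x) ^ (-β) := by positivity
    calc am n x * Di R x ^ m * a ≤ (Q * (2 ^ β * (1 + x) ^ (-β))) * (K3 + K4) := by
          have : am n x * Di R x ^ m ≤ Q * (2 ^ β * (1 + x) ^ (-β)) := h5.trans (by gcongr)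
          gcongr
      _ = (K3 + K4) * Q * 2 ^ β * (1 + x) ^ (-β) := by ring
      _ ≤ C * (1 + x) ^ (-β) := by
          have : 0 ≤ (|K1| + |K2|) * (1 + X) ^ β := by positivity
          gcongr
          rw [hC]; linarith
  have hinn : ∀ (x a : ℝ), 0 ≤ x → x ≤ X → a ≤ |K1| + |K2| → a ≤ C * (1 + x) ^ (-β) := by
    intro x a hx0 hx ha
    have h5 := hin x hx0 hx
    have h9 : 0 ≤ (1 + x) ^ (-β) := by positivity
    calc a ≤ (|K1| + |K2|) * 1 := by linarith
      _ ≤ (|K1| + |K2|) * ((1 + X) ^ β * (1 + x) ^ (-β)) := by gcongr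
      _ = (|K1| + |K2|) * (1 + X) ^ β * (1 + x) ^ (-β) := by ring
      _ ≤ C * (1 + x) ^ (-β) := by
          have : 0 ≤ (K3 + K4) * Q * 2 ^ β := by positivity
          gcongr
          rw [hC]; linarith
  refine ⟨C, fun x hx0 => ?_⟩
  rcases le_or_gt x X with hx | hx
  · have a1 := hK1 x ⟨hx0, hx⟩
    have a2 := hK2 x ⟨hx0, hx⟩
    rw [Real.norm_eq_abs] at a1 a2
    have b1 := le_abs_self K1
    have b2 := le_abs_self K2
    have b3 := abs_nonneg K1
    have b4 := abs_nonneg K2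
    exact ⟨hinn x _ hx0 hx (by linarith), hinn x _ hx0 hx (by linarith)⟩
  · have hxR : R < x := hXR.trans hx
    have hxp : 0 < x := hR.trans hxR
    have ham : 0 ≤ am n x := by unfold am; positivity
    have hDi : 0 ≤ Di R x ^ m := by have := (Di_pos (R := R) (r := x)).le; positivity
    constructor
    · rw [UU_vv (by linarith)]
      have e : vv n m R x = am n x * Di R x ^ m * (cc R x * om R x) := by unfold vv ww; ring
      rw [e, abs_mul, abs_of_nonneg (mul_nonneg ham hDi)]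
      exact hout x _ hx.le (abs_nonneg _) ((h3 x hx.le).trans (by linarith))
    · have e1 : deriv (UU n m R L) x = vv1 n m R x := by
        have h5 : UU n m R L =ᶠ[𝓝 x] vv n m R := by
          filter_upwards [Ioi_mem_nhds (show R + L + 1 < x by linarith)] with z hz
          exact UU_vv (le_of_lt hz)
        rw [h5.deriv_eq]
        exact (hasDerivAt_vv hR hxR n m).deriv
      rw [e1]
      have e : vv1 n m R x = am n x * Di R x ^ m *
          (-(((n - 1 : ℕ) : ℝ) / 2) * ri x * (cc R x * om R x) +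
            (-(ss R x * et R x) - R * ri x ^ 2 * (cc R x * om R x ^ 2) -
            2 * m * QQ R x * (et R x * cc R x ^ 3))) := by unfold vv1 ww ww1; ring
      rw [e, abs_mul, abs_of_nonneg (mul_nonneg ham hDi)]
      exact hout x _ hx.le (abs_nonneg _) ((h4 x hx.le).trans (by linarith))

lemma th_injOn (hR : 0 < R) : InjOn (th R) (Ioi R) := by
  have hm : StrictMonoOn (th R) (Ioi R) := by
    apply strictMonoOn_of_deriv_pos (convex_Ioi R)
    · exact fun x hx => (hasDerivAt_th hR (hR.trans hx)).continuousAt.continuousWithinAt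
    · intro x hx
      rw [interior_Ioi] at hx
      rw [(hasDerivAt_th hR (hR.trans hx)).deriv]
      have := et_pos hR hx
      positivity
  exact hm.injOn

lemma countable_cos_zero : {x : ℝ | Real.cos x = 0}.Countable := by
  have : {x : ℝ | Real.cos x = 0} ⊆ range (fun k : ℤ => (2 * (k : ℝ) + 1) * Real.pi / 2) := by
    intro x hx
    obtain ⟨k, hk⟩ := Real.cos_eq_zero_iff.1 hx
    exact ⟨k, hk.symm⟩
  exact (countable_range _).mono this

lemma zerosU (P : Par n m R L M) : {r : ℝ | 0 ≤ r ∧ UU n m R L r = 0}.Countable := by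
  have hR := P.Rpos
  have hL := P.L0
  have hsub : {r : ℝ | 0 ≤ r ∧ UU n m R L r = 0} ⊆ {r : ℝ | R < r ∧ Real.cos (th R r) = 0} := by
    intro x hx
    have h1 : R + L + 2 < x := by
      by_contra hcon
      push Not at hcon
      exact (P.UU_pos hcon).ne' hx.2
    have hxR : R < x := by linarith
    have hx0 : 0 < x := hR.trans hxR
    refine ⟨hxR, ?_⟩
    have h2 := hx.2
    rw [UU_vv (by linarith)] at h2
    unfold vv ww am om at h2
    have e1 := et_pos hR hxR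
    have e2 := Di_pos (R := R) (r := x)
    have e3 := Real.sqrt_pos.2 hx0
    have e4 : (1 / √x) ^ (n - 1) ≠ 0 := by positivity
    have e5 : 1 / et R x ≠ 0 := by positivity
    have e6 : Di R x ^ m ≠ 0 := by positivity
    rcases mul_eq_zero.1 h2 with h | h
    · exact absurd h e4
    · rcases mul_eq_zero.1 h with h | h
      · rcases mul_eq_zero.1 h with h | h
        · exact h
        · exact absurd h e5
      · exact absurd h e6
  refine Countable.mono hsub ?_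
  refine MapsTo.countable_of_injOn (f := th R) (t := {x : ℝ | Real.cos x = 0})
    (fun x hx => hx.2) ((th_injOn hR).mono (fun x hx => hx.1)) countable_cos_zero

lemma oscU (P : Par n m R L M) (hm : 1 ≤ m) (ε ν : ℝ) :
    ∃ (X K : ℝ) (p p' q q' s c h e : ℝ → ℝ), 0 < X ∧
    (∀ r, X ≤ r → HasDerivAt p (p' r) r) ∧ (∀ r, X ≤ r → HasDerivAt q (q' r) r) ∧
    (∀ r, X ≤ r → HasDerivAt s (2 * (1 + h r) * c r) r) ∧
    (∀ r, X ≤ r → HasDerivAt c (-(2 * (1 + h r) * s r)) r) ∧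
    (∀ r, X ≤ r → |p r| ≤ K / r) ∧ (∀ r, X ≤ r → |p' r| ≤ K / r ^ 2) ∧
    (∀ r, X ≤ r → |q r| ≤ K / r) ∧ (∀ r, X ≤ r → |q' r| ≤ K / r ^ 2) ∧
    (∀ r, X ≤ r → |h r| ≤ K / r) ∧ (∀ r, X ≤ r → |e r| ≤ K / r ^ 2) ∧
    (∀ r, X ≤ r → |s r| ≤ 1) ∧ (∀ r, X ≤ r → |c r| ≤ 1) ∧
    (∀ r, X ≤ r → WW n m R L r - ε * UU n m R L r ^ 2 + ν / r ^ 2 = p r + q r * s r + e r) := by
  have hR := P.Rpos
  have hL := P.L0
  set X := R + L + 2 with hX
  have hXR : R < X := by linarith
  have hX0 : 0 < X := hR.trans hXR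
  set p : ℝ → ℝ := fun r => 1 - et R r ^ 4 with hp
  set p' : ℝ → ℝ := fun r => -(4 * et R r ^ 3 * (R * ri r ^ 2)) with hp'
  set q : ℝ → ℝ := fun r => 4 * m * et R r ^ 4 * QQ R r with hq
  set q' : ℝ → ℝ := fun r => 4 * m * (4 * et R r ^ 3 * (R * ri r ^ 2)) * QQ R r +
    4 * m * et R r ^ 4 * (et R r ^ 2 * cc R r ^ 2 * Di R r -
      2 * QQ R r ^ 2 * (et R r ^ 2 * cc R r ^ 2)) with hq'
  set s : ℝ → ℝ := fun r => 2 * (ss R r * cc R r) with hs
  set c : ℝ → ℝ := fun r => cc R r ^ 2 - ss R r ^ 2 with hc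
  set h : ℝ → ℝ := fun r => et R r ^ 2 - 1 with hh
  set e : ℝ → ℝ := fun r => 2 * R * ri r ^ 3 * om R r + 2 * R ^ 2 * ri r ^ 4 * om R r ^ 2 +
    et R r ^ 4 * cc R r ^ 4 * (-(2 * m) * Di R r + 4 * m * (m + 1) * QQ R r ^ 2) -
    ((n - 1 : ℕ) : ℝ) * (((n - 1 : ℕ) : ℝ) - 2) / 4 * ri r ^ 2 - ε * v2 n m R r +
    ν * ri r ^ 2 with he
  have Ori := OX_ri hX0
  have Ori2 : OX X 2 (fun r => ri r ^ 2) :=
    (OX.mul hX0 Ori Ori).congr (fun x _ => by ring)
  have Oet : OX X 0 (et R) := OX_alg hR hXR Alg.iet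
  have amul : ∀ {f g : ℝ → ℝ} {k : ℕ}, Alg R f → OX X k g → OX X k (fun x => f x * g x) := by
    intro f g k hf hg
    have := OX.mul hX0 (OX_alg hR hXR hf) hg
    simpa using this
  have OQ := OX_QQ (X := X) hR hXR
  have ODi := OX_Di (X := X) hR hXR
  have OQ2 : OX X 2 (fun r => QQ R r ^ 2) := (OX.mul hX0 OQ OQ).congr (fun x _ => by ring)
  have O1 : OX X 1 p := dec_one_sub_et.OX hR hXR
  have O2 : OX X 2 p' := (amul ((Alg.iconst (-(4 * R))).mul (Alg.iet.pow 3)) Ori2).congr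
    (fun x _ => by simp only [hp']; ring)
  have O3 : OX X 1 q := amul ((Alg.iconst (4 * m)).mul (Alg.iet.pow 4)) OQ
  have O4 : OX X 2 q' := by
    refine OX.add ?_ ?_
    · exact (amul (((Alg.iconst (16 * m * R)).mul (Alg.iet.pow 3)).mul Alg.iQQ) Ori2).congr
        (fun x _ => by ring)
    · refine amul ((Alg.iconst (4 * m)).mul (Alg.iet.pow 4)) ?_
      refine OX.sub (amul ((Alg.iet.pow 2).mul (Alg.icc.pow 2)) ODi) ?_
      exact (amul ((Alg.iconst 2).mul ((Alg.iet.pow 2).mul (Alg.icc.pow 2))) OQ2).congr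
        (fun x _ => by ring)
  have O5 : OX X 1 h := (amul ((Alg.iconst (-R)).mul ((Alg.iconst 1).add Alg.iet)) Ori).congr
    (fun x _ => by simp only [hh]; unfold et; ring)
  have O6 : OX X 2 e := by
    have a1 : OX X 2 (fun r => 2 * R * ri r ^ 3 * om R r) :=
      (amul (((Alg.iconst (2 * R)).mul Alg.iri).mul Alg.iom) Ori2).congr (fun x _ => by ring)
    have a2 : OX X 2 (fun r => 2 * R ^ 2 * ri r ^ 4 * om R r ^ 2) :=
      (amul (((Alg.iconst (2 * R ^ 2)).mul (Alg.iri.pow 2)).mul (Alg.iom.pow 2)) Ori2).congr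
        (fun x _ => by ring)
    have a3 : OX X 2 (fun r => et R r ^ 4 * cc R r ^ 4 *
        (-(2 * m) * Di R r + 4 * m * (m + 1) * QQ R r ^ 2)) :=
      amul ((Alg.iet.pow 4).mul (Alg.icc.pow 4))
        ((OX.cmul hX0 (-(2 * m)) ODi).add (OX.cmul hX0 (4 * m * (m + 1)) OQ2))
    have a4 : OX X 2 (fun r => ((n - 1 : ℕ) : ℝ) * (((n - 1 : ℕ) : ℝ) - 2) / 4 * ri r ^ 2) :=
      OX.cmul hX0 _ Ori2
    exact ((((a1.add a2).add a3).sub a4).sub (OX.cmul hX0 ε (OX_v2 hR hXR hm))).add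
      (OX.cmul hX0 ν Ori2)
  obtain ⟨K1, hK1, b1⟩ := O1
  obtain ⟨K2, hK2, b2⟩ := O2
  obtain ⟨K3, hK3, b3⟩ := O3
  obtain ⟨K4, hK4, b4⟩ := O4
  obtain ⟨K5, hK5, b5⟩ := O5
  obtain ⟨K6, hK6, b6⟩ := O6
  refine ⟨X, K1 + K2 + K3 + K4 + K5 + K6, p, p', q, q', s, c, h, e, hX0, ?_, ?_, ?_, ?_, ?_,
    ?_, ?_, ?_, ?_, ?_, ?_, ?_, ?_⟩
  · intro r hr
    have hr0 : 0 < r := lt_of_lt_of_le hX0 hr
    refine HasDerivAt.congr_deriv (((hasDerivAt_et (R := R) hr0.ne').fun_pow 4).const_sub 1) ?_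
    simp only [hp']
    norm_num
  · intro r hr
    have hr0 : 0 < r := lt_of_lt_of_le hX0 hr
    refine HasDerivAt.congr_deriv ((((hasDerivAt_et (R := R) hr0.ne').fun_pow 4).const_mul
      (4 * (m : ℝ))).mul (hasDerivAt_QQ hR hr0)) ?_
    simp only [hq']
    norm_num
  · intro r hr
    have hr0 : 0 < r := lt_of_lt_of_le hX0 hr
    refine HasDerivAt.congr_deriv (((hasDerivAt_ss hR hr0).mul (hasDerivAt_cc hR hr0)).const_mul
      (2 : ℝ)) ?_
    simp only [hc, hh]
    ring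
  · intro r hr
    have hr0 : 0 < r := lt_of_lt_of_le hX0 hr
    refine HasDerivAt.congr_deriv (((hasDerivAt_cc hR hr0).fun_pow 2).sub
      ((hasDerivAt_ss hR hr0).fun_pow 2)) ?_
    simp only [hs, hh]
    norm_num
    ring
  · intro r hr
    have hr0 : 0 < r := lt_of_lt_of_le hX0 hr
    have := b1 r hr
    rw [pow_one] at this
    exact this.trans (by gcongr; linarith)
  · intro r hr
    have hr0 : 0 < r := lt_of_lt_of_le hX0 hr
    exact (b2 r hr).trans (by gcongr; linarith)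
  · intro r hr
    have hr0 : 0 < r := lt_of_lt_of_le hX0 hr
    have := b3 r hr
    rw [pow_one] at this
    exact this.trans (by gcongr; linarith)
  · intro r hr
    have hr0 : 0 < r := lt_of_lt_of_le hX0 hr
    exact (b4 r hr).trans (by gcongr; linarith)
  · intro r hr
    have hr0 : 0 < r := lt_of_lt_of_le hX0 hr
    have := b5 r hr
    rw [pow_one] at this
    exact this.trans (by gcongr; linarith)
  · intro r hr
    have hr0 : 0 < r := lt_of_lt_of_le hX0 hr
    exact (b6 r hr).trans (by gcongr; linarith)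
  · intro r _
    have h1 := sc_le (R := R) (r := r)
    have h2 := sc_ge (R := R) (r := r)
    simp only [hs]
    rw [abs_le]
    constructor <;> linarith
  · intro r _
    have h1 := cs_sq (R := R) (r := r)
    simp only [hc]
    rw [abs_le]
    constructor <;> nlinarith [sq_nonneg (cc R r), sq_nonneg (ss R r)]
  · intro r hr
    have hr0 : 0 < r := lt_of_lt_of_le hX0 hr
    rw [P.WW_BN (by linarith), UU_vv (by linarith), vv_sq hr0]
    simp only [hp, hq, hs, he]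
    have : ν / r ^ 2 = ν * ri r ^ 2 := by unfold ri; field_simp
    rw [this]
    unfold BN BB
    ring

lemma exists_M : ∃ M : ℝ, 1 ≤ M ∧ (∀ x, |deriv Real.smoothTransition x| ≤ M) ∧
    ∀ x, |deriv (deriv Real.smoothTransition) x| ≤ M := by
  have c0 : ContDiff ℝ (⊤ : ℕ∞) Real.smoothTransition := Real.smoothTransition.contDiff
  have c1 : ContDiff ℝ (⊤ : ℕ∞) (deriv Real.smoothTransition) := (contDiff_infty_iff_deriv.1 c0).2
  have c2 : ContDiff ℝ (⊤ : ℕ∞) (deriv (deriv Real.smoothTransition)) :=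
    (contDiff_infty_iff_deriv.1 c1).2
  have z1 : ∀ x, x < 0 ∨ 1 < x → deriv Real.smoothTransition x = 0 := by
    intro x hx
    rcases hx with hx | hx
    · have h1 : Real.smoothTransition =ᶠ[𝓝 x] fun _ => 0 := by
        filter_upwards [Iio_mem_nhds hx] with z hz
        exact Real.smoothTransition.zero_of_nonpos (le_of_lt hz)
      rw [h1.deriv_eq]; simp
    · have h1 : Real.smoothTransition =ᶠ[𝓝 x] fun _ => 1 := by
        filter_upwards [Ioi_mem_nhds hx] with z hz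
        exact Real.smoothTransition.one_of_one_le (le_of_lt hz)
      rw [h1.deriv_eq]; simp
  have z2 : ∀ x, x < 0 ∨ 1 < x → deriv (deriv Real.smoothTransition) x = 0 := by
    intro x hx
    rcases hx with hx | hx
    · have h1 : deriv Real.smoothTransition =ᶠ[𝓝 x] fun _ => 0 := by
        filter_upwards [Iio_mem_nhds hx] with z hz
        exact z1 z (Or.inl hz)
      rw [h1.deriv_eq]; simp
    · have h1 : deriv Real.smoothTransition =ᶠ[𝓝 x] fun _ => 0 := by
        filter_upwards [Ioi_mem_nhds hx] with z hz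
        exact z1 z (Or.inr hz)
      rw [h1.deriv_eq]; simp
  obtain ⟨K1, hK1⟩ := (isCompact_Icc (a := (0 : ℝ)) (b := 1)).exists_bound_of_continuousOn
    c1.continuous.continuousOn
  obtain ⟨K2, hK2⟩ := (isCompact_Icc (a := (0 : ℝ)) (b := 1)).exists_bound_of_continuousOn
    c2.continuous.continuousOn
  refine ⟨1 + |K1| + |K2|, ?_, ?_, ?_⟩
  · have := abs_nonneg K1
    have := abs_nonneg K2
    linarith
  · intro x
    have a1 := abs_nonneg K1
    have a2 := abs_nonneg K2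
    by_cases hx : x ∈ Icc (0 : ℝ) 1
    · have := hK1 x hx
      rw [Real.norm_eq_abs] at this
      have := le_abs_self K1
      linarith
    · rw [z1 x (by
        rw [mem_Icc, not_and_or, not_le, not_le] at hx
        exact hx)]
      rw [abs_zero]
      linarith
  · intro x
    have a1 := abs_nonneg K1
    have a2 := abs_nonneg K2
    by_cases hx : x ∈ Icc (0 : ℝ) 1
    · have := hK2 x hx
      rw [Real.norm_eq_abs] at this
      have := le_abs_self K2
      linarith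
    · rw [z2 x (by
        rw [mem_Icc, not_and_or, not_le, not_le] at hx
        exact hx)]
      rw [abs_zero]
      linarith

lemma exists_par (n m : ℕ) (hn : 1 ≤ n) : ∃ R L M, Par n m R L M := by
  obtain ⟨M, hM, hM1, hM2⟩ := exists_M
  have hn1 : (1 : ℝ) ≤ n := by exact_mod_cast hn
  have hm0 : (0 : ℝ) ≤ m := Nat.cast_nonneg m
  set L : ℝ := 8 * (12 + 4 * (n : ℝ)) * M with hL
  have hL1 : 1 ≤ L := by rw [hL]; nlinarith
  set T : ℝ := L + 2 with hT
  have hT1 : 3 ≤ T := by linarith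
  set R : ℝ := 100 * ((m : ℝ) + 1) * ((n : ℝ) + 1) ^ 2 * T ^ 3 with hR
  have hT3 : 1 ≤ T ^ 3 := one_le_pow₀ (by linarith)
  have hTT : T ≤ T ^ 3 := by
    calc T = T ^ 1 := (pow_one T).symm
      _ ≤ T ^ 3 := pow_le_pow_right₀ (by linarith) (by norm_num)
  have hn2 : 1 ≤ ((n : ℝ) + 1) ^ 2 := one_le_pow₀ (by linarith)
  have hm1 : (1 : ℝ) ≤ (m : ℝ) + 1 := by linarith
  have hRT : 100 * T ^ 3 ≤ R := by
    calc 100 * T ^ 3 = 100 * 1 * 1 * T ^ 3 := by ring
      _ ≤ 100 * ((m : ℝ) + 1) * ((n : ℝ) + 1) ^ 2 * T ^ 3 := by gcongr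
  have hRm : 100 * ((m : ℝ) + 1) * T ^ 3 ≤ R := by
    calc 100 * ((m : ℝ) + 1) * T ^ 3 = 100 * ((m : ℝ) + 1) * 1 * T ^ 3 := by ring
      _ ≤ 100 * ((m : ℝ) + 1) * ((n : ℝ) + 1) ^ 2 * T ^ 3 := by gcongr
  have hR1 : 1 ≤ R := by linarith
  refine ⟨R, L, M, hn, hM, hM1, hM2, le_rfl, ?_, ?_, ?_, ?_, ?_⟩
  · -- 2 n L ≤ R
    have h1 : (n : ℝ) ≤ ((n : ℝ) + 1) ^ 2 := by nlinarith
    calc 2 * (n : ℝ) * L ≤ 2 * ((n : ℝ) + 1) ^ 2 * T ^ 3 := by
          have : L ≤ T ^ 3 := by linarith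
          gcongr
      _ ≤ 100 * ((m : ℝ) + 1) * ((n : ℝ) + 1) ^ 2 * T ^ 3 := by
          have : 2 ≤ 100 * ((m : ℝ) + 1) := by linarith
          gcongr
      _ = R := hR.symm
  · -- 2 L (2+m) T² ≤ R²
    calc 2 * L * (2 + m) * T ^ 2 ≤ 2 * T * (2 * ((m : ℝ) + 1)) * T ^ 2 := by
          have : (2 : ℝ) + m ≤ 2 * ((m : ℝ) + 1) := by linarith
          have : L ≤ T := by linarith
          gcongr
      _ = 4 * ((m : ℝ) + 1) * T ^ 3 := by ring
      _ ≤ 100 * ((m : ℝ) + 1) * T ^ 3 := by gcongr; norm_num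
      _ ≤ R := hRm
      _ = R ^ 1 := (pow_one R).symm
      _ ≤ R ^ 2 := pow_le_pow_right₀ hR1 (by norm_num)
  · calc T ^ 3 ≤ 100 * T ^ 3 := by linarith
      _ ≤ R := hRT
      _ = R ^ 1 := (pow_one R).symm
      _ ≤ R ^ 2 := pow_le_pow_right₀ hR1 (by norm_num)
  · -- 8 (1+4m) T^4 ≤ R^4
    have h1 : 8 * (1 + 4 * (m : ℝ)) * T ^ 4 ≤ R * R := by
      have h2 : T ^ 4 ≤ T ^ 3 * T ^ 3 := by
        rw [← pow_add]
        exact pow_le_pow_right₀ (by linarith) (by norm_num)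
      calc 8 * (1 + 4 * (m : ℝ)) * T ^ 4 ≤ (100 * ((m : ℝ) + 1)) * (T ^ 3 * T ^ 3) := by
            have : 8 * (1 + 4 * (m : ℝ)) ≤ 100 * ((m : ℝ) + 1) := by linarith
            gcongr
        _ = (100 * ((m : ℝ) + 1) * T ^ 3) * (1 * T ^ 3) := by ring
        _ ≤ R * R := by
            have : 1 * T ^ 3 ≤ R := by linarith
            gcongr
    calc 8 * (1 + 4 * (m : ℝ)) * T ^ 4 ≤ R * R := h1
      _ = R ^ 2 := by ring
      _ ≤ R ^ 4 := pow_le_pow_right₀ hR1 (by norm_num)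
  · -- 54 m + n² + 1 ≤ R
    have h1 : 54 * (m : ℝ) + (n : ℝ) ^ 2 + 1 ≤ 100 * ((m : ℝ) + 1) * ((n : ℝ) + 1) ^ 2 := by
      have h2 : 54 * (m : ℝ) ≤ 54 * (m : ℝ) * ((n : ℝ) + 1) ^ 2 := by nlinarith
      have h3 : (n : ℝ) ^ 2 + 1 ≤ ((n : ℝ) + 1) ^ 2 := by nlinarith
      have h4 : 0 ≤ (m : ℝ) * ((n : ℝ) + 1) ^ 2 := by positivity
      nlinarith
    calc 54 * (m : ℝ) + (n : ℝ) ^ 2 + 1 ≤ 100 * ((m : ℝ) + 1) * ((n : ℝ) + 1) ^ 2 * 1 := by
          linarith
      _ ≤ 100 * ((m : ℝ) + 1) * ((n : ℝ) + 1) ^ 2 * T ^ 3 := by gcongr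
      _ = R := hR.symm

/-- MODULE G -/
theorem stmtG : StmtG := by
  intro n m hn hm
  obtain ⟨R, L, M, P⟩ := exists_par n m hn
  have hR := P.Rpos
  have hL := P.L0
  refine ⟨WW n m R L, UU n m R L, contDiff_UU P, contDiff_WW P, ?_, fun r hr => WW_eqn P hr,
    ⟨1 / 2, by norm_num, fun r hr => WW_lower P hr⟩, decU P, decV P hm, zerosU P, oscU P hm⟩
  refine ⟨R + L - 1, KK n m R L, by linarith, P.KK_pos, fun r hr => UU_const (by linarith),
    fun r hr => P.WW_one (by linarith)⟩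

end

end NLSn
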